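import Pool.Agent.helper27.PC3.GRP

/-!
# PC project, third part: parts `1`
-/

namespace Pool.Agent.helper27.PC

open Module Finset

section b1

theorem B1_alt {m : ℕ} (hm : 1 ≤ m) (e : ℕ) :
    ∑ i ∈ range (e + 1), (-1 : ℤ) ^ i * (m.choose i : ℤ) = (-1) ^ e * ((m - 1).choose e : ℤ) := by
  obtain ⟨m, rfl⟩ : ∃ m', m = m' + 1 := ⟨m - 1, by omega⟩
  rw [Nat.add_sub_cancel]
  induction e with
  | zero => simp
  | succ e ih =>
    rw [sum_range_succ, ih, Nat.choose_succ_succ]
    push_cast
    ring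

theorem B1_alt2 {m : ℕ} (hm : 2 ≤ m) (e : ℕ) :
    ∑ i ∈ range (e + 1), (-1 : ℤ) ^ i * (m.choose i : ℤ) * ((e : ℤ) + 1 - i) =
      (-1) ^ e * ((m - 2).choose e : ℤ) := by
  induction e with
  | zero => simp
  | succ e ih =>
    have h1 := B1_alt (m := m) (by omega) (e + 1)
    have h2 : ∑ i ∈ range (e + 1 + 1), (-1 : ℤ) ^ i * (m.choose i : ℤ) * (((e + 1 : ℕ) : ℤ) + 1 - i) =
        ∑ i ∈ range (e + 1 + 1), (-1 : ℤ) ^ i * (m.choose i : ℤ) * ((e : ℤ) + 1 - i) +
        ∑ i ∈ range (e + 1 + 1), (-1 : ℤ) ^ i * (m.choose i : ℤ) := by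
      rw [← sum_add_distrib]
      refine sum_congr rfl fun i _ => ?_
      push_cast
      ring
    rw [h2, h1, sum_range_succ, ih]
    have h3 : m - 1 = (m - 2) + 1 := by omega
    rw [h3, Nat.choose_succ_succ]
    push_cast
    ring

/-- the norms of the rungs -/
def B1_nu (κ : ℤ) (e i : ℕ) : ℤ := if i < e then 2 * ((e : ℤ) - i) else if i = e then κ else 0

theorem B1_sum (κ : ℤ) {m e : ℕ} (he : e ≤ m) :
    ∑ i ∈ range (m + 1), (-1 : ℤ) ^ i * (m.choose i : ℤ) * B1_nu κ e i =
      2 * ∑ i ∈ range e, (-1 : ℤ) ^ i * (m.choose i : ℤ) * ((e : ℤ) - i) +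
        κ * (-1) ^ e * (m.choose e : ℤ) := by
  have h1 : ∑ i ∈ range (m + 1), (-1 : ℤ) ^ i * (m.choose i : ℤ) * B1_nu κ e i =
      ∑ i ∈ range (e + 1), (-1 : ℤ) ^ i * (m.choose i : ℤ) * B1_nu κ e i := by
    symm
    apply sum_subset
    · intro i hi
      rw [mem_range] at hi ⊢
      omega
    · intro i _ hi
      rw [mem_range] at hi
      unfold B1_nu
      rw [if_neg (by omega), if_neg (by omega), mul_zero]
  rw [h1, sum_range_succ, mul_sum]
  congr 1
  · refine sum_congr rfl fun i hi => ?_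
    rw [mem_range] at hi
    unfold B1_nu
    rw [if_pos hi]
    ring
  · unfold B1_nu
    rw [if_neg (by omega), if_pos rfl]
    ring

/-- the value, type `B` -/
theorem B1_T1 {m e : ℕ} (hm : 1 ≤ m) (he : e ≤ m) (hex : ¬ (m = 2 ∧ e = 1)) :
    ∑ i ∈ range (m + 1), (-1 : ℤ) ^ i * (m.choose i : ℤ) * B1_nu 1 e i ≠ 0 := by
  rw [B1_sum 1 he]
  rcases Nat.eq_zero_or_pos e with h0 | h0
  · subst h0
    simp
  · obtain ⟨f, rfl⟩ : ∃ f, e = f + 1 := ⟨e - 1, by omega⟩
    rcases Nat.lt_or_ge m 2 with hm2 | hm2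
    · have : m = 1 := by omega
      subst this
      have : f = 0 := by omega
      subst this
      simp
    · have h1 := B1_alt2 hm2 f
      have h2 : ∑ i ∈ range (f + 1), (-1 : ℤ) ^ i * (m.choose i : ℤ) * (((f + 1 : ℕ) : ℤ) - i) =
          (-1) ^ f * ((m - 2).choose f : ℤ) := by
        rw [← h1]
        refine sum_congr rfl fun i _ => ?_
        push_cast
        ring
      rw [h2]
      obtain ⟨m', rfl⟩ : ∃ m', m = m' + 2 := ⟨m - 2, by omega⟩
      rw [Nat.add_sub_cancel]
      have hf : (-1 : ℤ) ^ f * (-1) ^ f = 1 := by rw [← mul_pow]; simp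
      rcases Nat.eq_zero_or_pos f with h3 | h3
      · subst h3
        simp only [zero_add, pow_zero, Nat.choose_zero_right, Nat.choose_one_right, pow_one]
        intro h
        push_cast at h
        have : (m' : ℤ) = 0 := by linarith
        exact hex ⟨by omega, rfl⟩
      · obtain ⟨g, rfl⟩ : ∃ g, f = g + 1 := ⟨f - 1, by omega⟩
        have h4 : (m' + 2).choose (g + 1 + 1) =
            m'.choose (g + 2) + 2 * m'.choose (g + 1) + m'.choose g := by
          rw [Nat.choose_succ_succ, Nat.choose_succ_succ, Nat.choose_succ_succ]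
          ring
        rw [h4]
        intro h
        have h5 : (0 : ℤ) < m'.choose g := by
          have : 0 < m'.choose g := Nat.choose_pos (by omega)
          exact_mod_cast this
        have h6 : (0 : ℤ) ≤ m'.choose (g + 2) := Int.natCast_nonneg _
        have h7 : (-1 : ℤ) ^ (g + 1) * ((m'.choose (g + 2) : ℤ) + m'.choose g) = 0 := by
          push_cast at h
          rw [pow_succ (-1 : ℤ) (g + 1)] at h
          linear_combination -h
        rcases mul_eq_zero.1 h7 with h8 | h8
        · exact absurd h8 (pow_ne_zero _ (by norm_num))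
        · linarith

/-- the value, type `D`, `d ≥ 1` or `m = 1` -/
theorem B1_T0 {m e : ℕ} (he0 : 1 ≤ e) (he : e ≤ m) (hex : e + 1 ≤ m ∨ m = 1) :
    ∑ i ∈ range (m + 1), (-1 : ℤ) ^ i * (m.choose i : ℤ) * B1_nu 0 e i ≠ 0 := by
  rw [B1_sum 0 he]
  obtain ⟨f, rfl⟩ : ∃ f, e = f + 1 := ⟨e - 1, by omega⟩
  rcases Nat.lt_or_ge m 2 with hm2 | hm2
  · have : m = 1 := by omega
    subst this
    have : f = 0 := by omega
    subst this
    simp
  · have h1 := B1_alt2 hm2 f
    have h2 : ∑ i ∈ range (f + 1), (-1 : ℤ) ^ i * (m.choose i : ℤ) * (((f + 1 : ℕ) : ℤ) - i) =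
        (-1) ^ f * ((m - 2).choose f : ℤ) := by
      rw [← h1]
      refine sum_congr rfl fun i _ => ?_
      push_cast
      ring
    rw [h2]
    have h5 : (0 : ℤ) < (m - 2).choose f := by
      have : 0 < (m - 2).choose f := Nat.choose_pos (by omega)
      exact_mod_cast this
    intro h
    have h6 : (-1 : ℤ) ^ f * ((m - 2).choose f : ℤ) = 0 := by linarith
    rcases mul_eq_zero.1 h6 with h8 | h8
    · exact absurd h8 (pow_ne_zero _ (by norm_num))
    · linarith

/-- the value, type `D`, `d = 0` -/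
theorem B1_T00 {m : ℕ} (hm : 3 ≤ m) :
    ∑ i ∈ range (m + 1), (-1 : ℤ) ^ i * (m.choose i : ℤ) *
      (-2 * B1_nu 0 m (i + 1) - i * B1_nu 0 m i) ≠ 0 := by
  -- the terms of the polynomial
  have h1 : ∀ i ∈ range (m + 1), (-1 : ℤ) ^ i * (m.choose i : ℤ) *
      (-2 * B1_nu 0 m (i + 1) - i * B1_nu 0 m i) =
      -4 * ((-1 : ℤ) ^ i * (m.choose i : ℤ) * ((m : ℤ) - i)) +
      4 * ((-1 : ℤ) ^ i * (m.choose i : ℤ)) -
      2 * ((-1 : ℤ) ^ i * (m.choose i : ℤ) * ((m : ℤ) - i) * i) -
      (if i = m then 4 * (-1 : ℤ) ^ m else 0) := by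
    intro i hi
    rw [mem_range] at hi
    unfold B1_nu
    rcases Nat.lt_trichotomy (i + 1) m with h | h | h
    · rw [if_pos h, if_pos (by omega), if_neg (by omega)]
      push_cast
      ring
    · rw [if_neg (by omega), if_pos h, if_pos (by omega), if_neg (by omega)]
      have : (m : ℤ) = i + 1 := by rw [← h]; push_cast; ring
      rw [this]
      ring
    · have him : i = m := by omega
      subst him
      rw [if_neg (by omega), if_neg (by omega), if_neg (by omega), if_pos rfl, if_pos rfl]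
      rw [Nat.choose_self]
      push_cast
      ring
  rw [sum_congr rfl h1, sum_sub_distrib, sum_sub_distrib, sum_add_distrib, ← mul_sum, ← mul_sum,
    ← mul_sum, sum_ite_eq' (range (m + 1)) m, if_pos (by simp)]
  have e0 : ∑ i ∈ range (m + 1), (-1 : ℤ) ^ i * (m.choose i : ℤ) = 0 := by
    rw [B1_alt (by omega), Nat.choose_eq_zero_of_lt (by omega)]
    simp
  have hmi : ∀ i ∈ range (m + 1), (m.choose i : ℤ) * ((m : ℤ) - i) =
      m * ((m - 1).choose i : ℤ) := by
    intro i hi
    rw [mem_range] at hi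
    have h2 := Nat.choose_mul_succ_eq (m - 1) i
    rw [show m - 1 + 1 = m by omega] at h2
    have h3 : (((m - 1).choose i * m : ℕ) : ℤ) = ((m.choose i * (m - i) : ℕ) : ℤ) := by
      rw [h2]
    push_cast [Nat.cast_sub (show i ≤ m by omega)] at h3
    linear_combination -h3
  have e1 : ∑ i ∈ range (m + 1), (-1 : ℤ) ^ i * (m.choose i : ℤ) * ((m : ℤ) - i) = 0 := by
    have : ∀ i ∈ range (m + 1), (-1 : ℤ) ^ i * (m.choose i : ℤ) * ((m : ℤ) - i) =
        m * ((-1 : ℤ) ^ i * ((m - 1).choose i : ℤ)) := by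
      intro i hi
      rw [mul_assoc, hmi i hi]
      ring
    rw [sum_congr rfl this, ← mul_sum, B1_alt (by omega), Nat.choose_eq_zero_of_lt (by omega)]
    simp
  have e2 : ∑ i ∈ range (m + 1), (-1 : ℤ) ^ i * (m.choose i : ℤ) * ((m : ℤ) - i) * i = 0 := by
    rw [sum_range_succ' ]
    have : ∀ i ∈ range m, (-1 : ℤ) ^ (i + 1) * (m.choose (i + 1) : ℤ) *
        ((m : ℤ) - (i + 1 : ℕ)) * (i + 1 : ℕ) =
        -(m * (m - 1)) * ((-1 : ℤ) ^ i * ((m - 2).choose i : ℤ)) := by
      intro i hi
      rw [mem_range] at hi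
      have h2 := hmi (i + 1) (by rw [mem_range]; omega)
      have h3 := Nat.add_one_mul_choose_eq (m - 2) i
      rw [show m - 2 + 1 = m - 1 by omega] at h3
      have h4 : (((m - 1) * (m - 2).choose i : ℕ) : ℤ) =
          (((m - 1).choose (i + 1) * (i + 1) : ℕ) : ℤ) := by
        rw [h3]
      push_cast [Nat.cast_sub (show 1 ≤ m by omega)] at h4
      push_cast at h2 ⊢
      rw [pow_succ]
      linear_combination (-(-1 : ℤ) ^ i * (i + 1)) * h2 + ((-1 : ℤ) ^ i * m) * h4
    rw [sum_congr rfl this, ← mul_sum]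
    obtain ⟨m', rfl⟩ : ∃ m', m = m' + 1 := ⟨m - 1, by omega⟩
    rw [B1_alt (by omega), Nat.choose_eq_zero_of_lt (by omega)]
    simp
  rw [e0, e1, e2]
  intro h
  have h2 : (-1 : ℤ) ^ m = 0 := by linarith
  exact absurd h2 (pow_ne_zero _ (by norm_num))


theorem B1_dot_sum_left {ι : Type} (s : Finset ι) (f : ι → St →₀ ℤ) (u : St →₀ ℤ) :
    dot (∑ i ∈ s, f i) u = ∑ i ∈ s, dot (f i) u := by
  rw [DL_dot_comm, DL_dot_sum]
  exact sum_congr rfl fun i _ => DL_dot_comm _ _

theorem B1_nrm_smul {c : ℤ} (hc : c * c = 1) (u : St →₀ ℤ) : nrm (c • u) = nrm u := by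
  rw [DL_nrm, DL_nrm, R2_dot_smul_left, DL_dot_smul, ← mul_assoc, hc, one_mul]

theorem B1_nrm_vac (n : ℕ) : nrm (Finsupp.single (vac n) (1 : ℤ)) = 1 := by
  unfold nrm
  rw [Finsupp.sum_single_index]
  · norm_num
  · norm_num

theorem B1_low_vac (hLG : LG_stmt) (w : Lab → ℤ) {n a : ℕ} (ha : 1 ≤ a) :
    Low w a (Finsupp.single (vac n) (1 : ℤ)) = 0 :=
  (hLG ℤ w n 0 a _ ha (LT_gv0 n)).2.2 ha

theorem B1_nrm_rib (hDL : DL_stmt) (hLG : LG_stmt) {w : Lab → ℤ} (hw : ∀ l, w l * w l = 1) {n a : ℕ}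
    (ha : 1 ≤ a) (han : a ≤ n) : nrm (Rib w a (Finsupp.single (vac n) (1 : ℤ))) = 2 * a := by
  have h1 := hDL ℤ w hw n 0 a 1 _ ha (LT_gv0 n) (by omega)
  rw [pow_one, sum_range_succ, sum_range_succ, sum_range_zero] at h1
  simp only [pow_zero, Module.End.one_apply, pow_one, B1_low_vac hLG w ha, LT_nrm_zero,
    B1_nrm_vac] at h1
  rw [h1]
  simp

/-- the norms of the rungs over the vacuum -/
theorem B1_nrm (hDL : DL_stmt) (hLG : LG_stmt) (t p : Bool) {n m d e : ℕ} (hde : d + e = m)
    (hmn : m ≤ n) (hpar : GRP_par p (d : ℤ) 1) (i : ℕ) :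
    nrm (GRP_F t p (d : ℤ) m 1 i (Finsupp.single (vac n) 1)) =
      B1_nu (if t then 1 else 0) e i := by
  unfold GRP_F
  rw [LinearMap.smul_apply, B1_nrm_smul (GRP_s_sq p m 1 i)]
  have hi : GRP_i (d : ℤ) m 1 i = (i : ℤ) - e := by
    unfold GRP_i
    push_cast [← hde]
    ring
  have hpr := GRP_par_all (m := m) hpar i
  rw [hi] at hpr ⊢
  unfold B1_nu
  rcases lt_trichotomy i e with h | h | h
  · rw [if_pos h]
    have hneg : (i : ℤ) - e < 0 := by omega
    have habs : ((i : ℤ) - e).natAbs = e - i := by omega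
    have hc : ((e - i : ℕ) : ℤ) = (e : ℤ) - i := by omega
    unfold YO
    cases GRP_q p m i
    · rw [if_neg (by decide)]
      unfold EO
      rw [if_pos hneg, habs, B1_nrm_rib hDL hLG (LT_xt_sq t) (by omega) (by omega), hc]
    · rw [if_pos rfl]
      unfold PO
      rw [if_pos hneg, habs, B1_nrm_rib hDL hLG (fun _ => one_mul 1) (by omega) (by omega), hc]
  · subst h
    rw [if_neg (lt_irrefl _), if_pos rfl]
    rw [sub_self] at hpr ⊢
    have hq : GRP_q p m i = false := by
      unfold GRP_par at hpr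
      cases hq : GRP_q p m i
      · rfl
      · rw [hq] at hpr
        simp at hpr
    rw [hq]
    unfold YO EO
    rw [if_neg (by decide), if_neg (lt_irrefl _), if_pos rfl]
    have h1 : (Dg (xt t) - (if t then (1 : ℤ) else 0) • LinearMap.id :
        (St →₀ ℤ) →ₗ[ℤ] (St →₀ ℤ)) (Finsupp.single (vac n) (1 : ℤ)) =
        ((∑ l ∈ vac n, xt t l) - (if t then (1 : ℤ) else 0)) • Finsupp.single (vac n) (1 : ℤ) := by
      rw [LinearMap.sub_apply, LinearMap.smul_apply, LinearMap.id_apply, R2_Dg_single, sub_smul]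
    rw [h1]
    have h2 : ∑ l ∈ vac n, xt t l = (if t then 2 else 0) * ∑ p ∈ range n, (-1 : ℤ) ^ p := by
      have h3 : vac n = box n := by
        ext l
        rw [mem_box]
        unfold vac
        simp
      rw [h3]
      unfold box
      rw [sum_product, Fintype.sum_bool, mul_sum, ← sum_add_distrib]
      refine sum_congr rfl fun p _ => ?_
      unfold xt
      cases t
      · simp
      · simp
        ring
    have h4 : ∀ n : ℕ, ∑ p ∈ range n, (-1 : ℤ) ^ p = 0 ∨ ∑ p ∈ range n, (-1 : ℤ) ^ p = 1 := by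
      intro n
      have : ∀ n : ℕ, 2 * ∑ p ∈ range n, (-1 : ℤ) ^ p = 1 - (-1) ^ n := by
        intro n
        induction n with
        | zero => simp
        | succ n ih =>
          rw [sum_range_succ, mul_add, ih, pow_succ]
          ring
      have h5 := this n
      rcases Nat.even_or_odd n with h6 | h6
      · rw [h6.neg_one_pow] at h5
        left; linarith
      · rw [h6.neg_one_pow] at h5
        right; linarith
    rw [h2]
    cases t
    · simp [LT_nrm_zero]
    · rw [B1_nrm_smul, B1_nrm_vac, if_pos rfl]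
      simp only [if_true]
      rcases h4 n with h5 | h5
      · rw [h5]; norm_num
      · rw [h5]; norm_num
  · rw [if_neg (by omega), if_neg (by omega)]
    have h1 := (R2_deg hLG t (GRP_q p m i) (LT_gv0 n) (d := (i : ℤ) - e) (by
      intro _; omega)).2 (by push_cast; omega)
    rw [h1, LT_nrm_zero]

theorem B1 (hDL : DL_stmt) (hR1 : R1_stmt) (hR2 : R2_stmt) (hLA : LA_stmt) (hLB : LB_stmt)
    (hLG : LG_stmt) : B1_stmt := by
  intro t p n m d hmn hm hp1 hp2 hd hx1 hx2 hz
  have hdm : d ≤ m := by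
    cases t
    · have : d < m := by simpa using hd
      omega
    · simpa using hd
  obtain ⟨e, he⟩ : ∃ e, d + e = m := ⟨m - d, by omega⟩
  have hpar : GRP_par p (d : ℤ) 1 := by
    unfold GRP_par
    cases p
    · have := hp2 rfl
      rw [if_neg (by decide)]
      have h2 : Even (d : ℤ) := by exact_mod_cast this
      exact h2.sub_odd (by norm_num)
    · have := hp1 rfl
      rw [if_pos rfl, sub_zero]
      exact_mod_cast this
  set w : St →₀ ℤ := Finsupp.single (vac n) (1 : ℤ) with hw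
  have hgv : GV n 0 w := LT_gv0 n
  have hnu := B1_nrm hDL hLG t p he hmn hpar
  set κ : ℤ := if t then 1 else 0 with hκ
  set z : ℕ → (St →₀ ℤ) := fun i => GRP_F t p (d : ℤ) m 1 i w with hzdef
  have hnz : ∀ i, nrm (z i) = B1_nu κ e i := hnu
  have hlow : ∀ i, Low (xt t) 1 (z i) = (-2 : ℤ) • z (i + 1) := by
    intro i
    refine GRP_F_low hR2 t p le_rfl hpar i hgv (by omega) ?_ (B1_low_vac hLG _ le_rfl)
    unfold GRP_i
    push_cast
    omega
  have hlowpow : ∀ j i, ((Low (xt t) 1) ^ j) (z i) = ((-2 : ℤ) ^ j) • z (i + j) := by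
    intro j
    induction j with
    | zero => intro i; simp
    | succ j ih =>
      intro i
      rw [pow_succ', Module.End.mul_apply, ih, map_smul, hlow, smul_smul, pow_succ]
      rfl
  have hrel : ∑ i ∈ range (m + 1), ((m.choose i : ℕ) : ℤ) •
      (((2 : ℤ) ^ (m - i)) • ((Rib (xt t) 1) ^ i) (z i)) = 0 := by
    have h1 := GRP_expand hR1 hLG t p (m := m) le_rfl hpar hgv m (by omega) 0
    have h2 : GRP_F t p (d : ℤ) m 1 (m + 0) (((Rib (xt t) 1) ^ m) w) = 0 := by
      unfold GRP_F
      rw [add_zero, GRP_q_self, LinearMap.smul_apply]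
      have : GRP_i (d : ℤ) m 1 m = d := by unfold GRP_i; push_cast; ring
      rw [this, hz, smul_zero]
    rw [h2] at h1
    rw [h1]
    rfl
  have hadj : ∀ v v' : St →₀ ℤ, dot (Rib (xt t) 1 v) v' = dot v (Low (xt t) 1 v') :=
    fun v v' => hLA ℤ _ _ _ _ le_rfl
  have hadjpow : ∀ j, ∀ v v' : St →₀ ℤ, dot (((Rib (xt t) 1) ^ j) v) v' =
      dot v (((Low (xt t) 1) ^ j) v') := by
    intro j
    induction j with
    | zero => intro v v'; simp
    | succ j ih =>
      intro v v'
      rw [pow_succ', Module.End.mul_apply, hadj, ih, pow_succ, Module.End.mul_apply]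
  have h2pow : ∀ i ∈ range (m + 1), (2 : ℤ) ^ (m - i) * (-2) ^ i = 2 ^ m * (-1) ^ i := by
    intro i hi
    rw [mem_range] at hi
    rw [show (-2 : ℤ) = (-1) * 2 by norm_num, mul_pow]
    have : (2 : ℤ) ^ (m - i) * 2 ^ i = 2 ^ m := by
      rw [← pow_add]; congr 1; omega
    linear_combination ((-1 : ℤ) ^ i) * this
  -- first test vector
  have key1 : 2 ^ m * ∑ i ∈ range (m + 1), (-1 : ℤ) ^ i * (m.choose i : ℤ) * B1_nu κ e i = 0 := by
    have h1 := congrArg (fun v => dot v (z 0)) hrel
    rw [B1_dot_sum_left] at h1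
    have h2 : dot (0 : St →₀ ℤ) (z 0) = 0 := by
      rw [DL_dot_comm, DL_dot_zero]
    rw [h2] at h1
    rw [← h1, mul_sum]
    refine sum_congr rfl fun i hi => ?_
    rw [R2_dot_smul_left, R2_dot_smul_left, hadjpow, hlowpow, DL_dot_smul, zero_add, ← DL_nrm, hnz]
    linear_combination (-(m.choose i : ℤ) * B1_nu κ e i) * h2pow i hi
  have h20 : (2 : ℤ) ^ m ≠ 0 := pow_ne_zero _ (by norm_num)
  have key1' := (mul_eq_zero.1 key1).resolve_left h20
  cases t
  · have hκ0 : κ = 0 := rfl
    rw [hκ0] at key1' hnz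
    have hdlt : d < m := by simpa using hd
    by_cases hd0 : 1 ≤ d ∨ m = 1
    · exact B1_T0 (m := m) (e := e) (by omega) (by omega) (by omega) key1'
    · have hem : e = m := by omega
      have hm3 : 3 ≤ m := by
        by_contra h
        exact hx2 ⟨rfl, by omega, by omega⟩
      subst hem
      -- second test vector
      have key2 : 2 ^ e * ∑ i ∈ range (e + 1), (-1 : ℤ) ^ i * (e.choose i : ℤ) *
          (-2 * B1_nu 0 e (i + 1) - i * B1_nu 0 e i) = 0 := by
        have h1 := congrArg (fun v => dot v (Rib (xt false) 1 (z 1))) hrel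
        rw [B1_dot_sum_left] at h1
        have h2 : dot (0 : St →₀ ℤ) (Rib (xt false) 1 (z 1)) = 0 := by
          rw [DL_dot_comm, DL_dot_zero]
        rw [h2] at h1
        refine Eq.trans ?_ h1
        rw [mul_sum]
        refine sum_congr rfl fun i hi => ?_
        have hi' := mem_range.1 hi
        rw [R2_dot_smul_left, R2_dot_smul_left]
        have h3 : dot (((Rib (xt false) 1) ^ i) (z i)) (Rib (xt false) 1 (z 1)) =
            (-2 : ℤ) ^ i * (-2 * B1_nu 0 e (i + 1) - i * B1_nu 0 e i) := by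
          rw [DL_dot_comm, hadj, DL_dot_comm]
          rcases Nat.eq_zero_or_pos i with h0 | h0
          · subst h0
            rw [pow_zero, Module.End.one_apply, hlow, R2_dot_smul_left, zero_add, ← DL_nrm, hnz]
            push_cast
            ring
          · obtain ⟨j, rfl⟩ : ∃ j, i = j + 1 := ⟨i - 1, by omega⟩
            -- degree of `z (j + 1)`
            have hdeg : GV n (e - (j + 1)) (z (j + 1)) := by
              have hq0 : GRP_q p e (j + 1) = true → GRP_i (d : ℤ) e 1 (j + 1) ≠ 0 := by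
                intro hr h
                have := GRP_par_all (m := e) hpar (j + 1)
                unfold GRP_par at this
                rw [hr, h] at this
                simp at this
              have h5 := (R2_deg hLG false (GRP_q p e (j + 1)) hgv hq0).1 (e - (j + 1)) (by
                unfold GRP_i
                have : d = 0 := by omega
                rw [this]
                push_cast [Nat.cast_sub (show j + 1 ≤ e by omega)]
                ring)
              show GV n (e - (j + 1)) (GRP_F false p (d : ℤ) e 1 (j + 1) w)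
              unfold GRP_F
              rw [LinearMap.smul_apply]
              exact R2_GV_smul _ h5
            have h6 := GRP_comm_pow hLB hLG false le_rfl j hdeg (by omega)
            rw [h6, hlow]
            rw [DL_dot_comm, DL_dot_add, DL_dot_comm, map_smul, R2_dot_smul_left, hadjpow, hlowpow,
              DL_dot_smul, DL_dot_smul, DL_dot_smul, DL_dot_comm _ (((Rib (xt false) 1) ^ j) _),
              hadjpow, hlowpow, DL_dot_smul]
            have e1 : z (1 + (j + 1)) = z (j + 1 + 1) := by rw [add_comm]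
            have e2 : z (1 + j) = z (j + 1) := by rw [add_comm]
            rw [e1, e2, ← DL_nrm, ← DL_nrm, hnz, hnz]
            push_cast
            ring
        rw [h3]
        linear_combination (-(e.choose i : ℤ) * (-2 * B1_nu 0 e (i + 1) - i * B1_nu 0 e i)) *
          h2pow i hi
      exact B1_T00 hm3 ((mul_eq_zero.1 key2).resolve_left h20)
  · have hκ1 : κ = 1 := rfl
    rw [hκ1] at key1'
    exact B1_T1 (m := m) (e := e) hm (by omega) (by
      rintro ⟨h1, h2⟩
      exact hx1 ⟨rfl, h1, by omega⟩) key1'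

end b1

end Pool.Agent.helper27.PC
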