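import Pool.Agent.helper27.PC3.Stmt3

/-!
# PC project, third part: the ladder lemma
-/

namespace Pool.Agent.helper27.PC

open Module Finset

section lad

theorem LAD_W {V : Type} [AddCommGroup V] {b e : ℕ} {a c : Module.End ℤ V} {z : ℕ → V}
    (h1 : ∀ r : ℕ, a (z r) = (-2 : ℤ) • z (r + 1))
    (h2 : ∀ p r : ℕ, p + 1 ≤ r → a ((c ^ (p + 1)) (z r)) =
      (c ^ (p + 1)) (a (z r)) + (2 * b * (p + 1) : ℤ) • (c ^ p) (z r))
    (he : z (e + 1) = 0) : ∀ p s : ℕ, p + s ≤ e →
    (a ^ (s + p)) ((c ^ p) (z (e - s))) =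
      (((s + p).choose p * p.factorial * (2 * b) ^ p : ℕ) * (-2) ^ s : ℤ) • z e := by
  intro p
  induction p with
  | zero =>
    intro s
    induction s with
    | zero =>
      intro _
      simp
    | succ s ih =>
      intro hs
      have h3 := ih (by omega)
      rw [add_zero, pow_succ, Module.End.mul_apply, pow_zero, Module.End.one_apply, h1,
        show e - (s + 1) + 1 = e - s by omega, map_smul]
      rw [add_zero, pow_zero, Module.End.one_apply] at h3
      rw [h3, smul_smul]
      congr 1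
      simp
      ring
  | succ p ihp =>
    intro s
    induction s with
    | zero =>
      intro hs
      have h3 := ihp 0 (by omega)
      rw [zero_add, pow_succ a, Module.End.mul_apply, Nat.sub_zero, h2 p e (by omega), h1, he,
        smul_zero, map_zero, zero_add, map_smul]
      rw [zero_add, Nat.sub_zero] at h3
      rw [h3, smul_smul]
      congr 1
      rw [Nat.choose_self, Nat.choose_self, Nat.factorial_succ, pow_succ (2 * b)]
      push_cast
      ring
    | succ s ihs =>
      intro hs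
      have h3 := ihs (by omega)
      have h4 := ihp (s + 1) (by omega)
      rw [show s + 1 + (p + 1) = (s + (p + 1)) + 1 by ring, pow_succ a, Module.End.mul_apply,
        h2 p (e - (s + 1)) (by omega), h1, show e - (s + 1) + 1 = e - s by omega, map_add, map_smul,
        map_smul, map_smul, h3]
      rw [show s + (p + 1) = s + 1 + p by ring, h4, smul_smul, smul_smul, ← add_smul]
      congr 1
      have h5 : (s + 1 + p + 1).choose (p + 1) = (s + 1 + p).choose p + (s + 1 + p).choose (p + 1) :=
        Nat.choose_succ_succ _ _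
      rw [h5, Nat.factorial_succ, pow_succ (2 * b)]
      push_cast
      ring

/-- the coefficient -/
def LAD_S (m e b : ℕ) : ℤ := ∑ p ∈ range (m + 1), ((m.choose p : ℤ) * 2 ^ (m - p)) *
  ((e.choose p * p.factorial * (2 * b) ^ p : ℕ) * (-2) ^ (e - p))

theorem LAD_S_ne {m e b : ℕ} (hb : 3 ≤ b ∨ (b = 2 ∧ 2 ≤ m)) : LAD_S m e b ≠ 0 := by
  have h0 : LAD_S m e b = 2 ^ m * (-2) ^ e + ∑ p ∈ range m, ((m.choose (p + 1) : ℤ) * 2 ^ (m - (p + 1))) *
      ((e.choose (p + 1) * (p + 1).factorial * (2 * b) ^ (p + 1) : ℕ) * (-2) ^ (e - (p + 1))) := by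
    unfold LAD_S
    rw [sum_range_succ']
    simp
    ring
  rcases hb with hb | ⟨hb, hm⟩
  · rcases Nat.eq_two_pow_or_exists_odd_prime_and_dvd b with ⟨s, hs⟩ | ⟨q, hq, hqb, hodd⟩
    · -- `4 ∣ b`
      have h4 : 4 ∣ b := by
        have hs2 : 2 ≤ s := by
          by_contra h
          have : s = 0 ∨ s = 1 := by omega
          rcases this with h | h
          · rw [hs, h] at hb; omega
          · rw [hs, h] at hb; omega
        rw [hs]
        exact pow_dvd_pow 2 hs2
      obtain ⟨b', rfl⟩ := h4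
      intro h
      have h5 : (2 : ℤ) ^ (m + e + 1) ∣ ∑ p ∈ range m, ((m.choose (p + 1) : ℤ) * 2 ^ (m - (p + 1))) *
          ((e.choose (p + 1) * (p + 1).factorial * (2 * (4 * b')) ^ (p + 1) : ℕ) *
            (-2) ^ (e - (p + 1))) := by
        apply Finset.dvd_sum
        intro p hp
        rw [mem_range] at hp
        by_cases hpe : p + 1 ≤ e
        · have e1 : ((-2 : ℤ)) ^ (e - (p + 1)) = (-1) ^ (e - (p + 1)) * 2 ^ (e - (p + 1)) := by
            rw [← mul_pow]; norm_num
          have e2 : ((2 : ℤ)) ^ (m - (p + 1)) * (2 ^ (e - (p + 1)) * (8 : ℤ) ^ (p + 1)) =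
              2 ^ (m + e + 1) * 2 ^ p := by
            rw [show (8 : ℤ) = 2 ^ 3 by norm_num, ← pow_mul, ← pow_add, ← pow_add, ← pow_add]
            congr 1
            omega
          refine ⟨(m.choose (p + 1) : ℤ) * (e.choose (p + 1) * (p + 1).factorial * b' ^ (p + 1)) *
            (-1) ^ (e - (p + 1)) * 2 ^ p, ?_⟩
          rw [e1]
          push_cast
          rw [show (2 * (4 * (b' : ℤ))) ^ (p + 1) = 8 ^ (p + 1) * b' ^ (p + 1) by
            rw [← mul_pow]; ring_nf]
          linear_combination ((m.choose (p + 1) : ℤ) * (e.choose (p + 1) * (p + 1).factorial *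
            b' ^ (p + 1)) * (-1) ^ (e - (p + 1))) * e2
        · rw [Nat.choose_eq_zero_of_lt (by omega : e < p + 1)]
          simp
      rw [h0] at h
      have h6 : (2 : ℤ) ^ (m + e + 1) ∣ 2 ^ m * (-2) ^ e := by
        rw [eq_neg_of_add_eq_zero_left h]
        exact (dvd_neg).2 h5
      have h7 : (2 : ℤ) ^ m * (-2) ^ e = (-1) ^ e * 2 ^ (m + e) := by
        rw [show (-2 : ℤ) = (-1) * 2 by norm_num, mul_pow, pow_add]
        ring
      rw [h7] at h6
      have h8 : (2 : ℤ) ^ (m + e + 1) ∣ 2 ^ (m + e) := by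
        have h9 := h6.mul_left ((-1) ^ e)
        rwa [← mul_assoc, ← mul_pow, show (-1 : ℤ) * -1 = 1 by norm_num, one_pow, one_mul] at h9
      have h9 := Int.le_of_dvd (by positivity) h8
      rw [pow_succ] at h9
      have h10 : (0 : ℤ) < 2 ^ (m + e) := by positivity
      linarith
    · intro h
      rw [h0] at h
      have hqi : Prime (q : ℤ) := Nat.prime_iff_prime_int.1 hq
      have h5 : (q : ℤ) ∣ ∑ p ∈ range m, ((m.choose (p + 1) : ℤ) * 2 ^ (m - (p + 1))) *
          ((e.choose (p + 1) * (p + 1).factorial * (2 * b) ^ (p + 1) : ℕ) *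
            (-2) ^ (e - (p + 1))) := by
        apply Finset.dvd_sum
        intro p _
        apply Dvd.dvd.mul_left
        apply Dvd.dvd.mul_right
        have h6 : q ∣ e.choose (p + 1) * (p + 1).factorial * (2 * b) ^ (p + 1) := by
          apply Dvd.dvd.mul_left
          exact dvd_pow (hqb.mul_left 2) (by omega)
        exact_mod_cast h6
      have h6 : (q : ℤ) ∣ 2 ^ m * (-2) ^ e := by
        rw [eq_neg_of_add_eq_zero_left h]
        exact (dvd_neg).2 h5
      have h7 : ¬ (q : ℤ) ∣ 2 := by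
        intro h8
        have h9 : q ∣ 2 := by exact_mod_cast h8
        rcases (Nat.dvd_prime Nat.prime_two).1 h9 with h | h
        · exact hq.one_lt.ne' h
        · rw [h] at hodd
          exact absurd hodd (by decide)
      rcases hqi.dvd_mul.1 h6 with h8 | h8
      · exact h7 (hqi.dvd_of_dvd_pow h8)
      · exact h7 ((dvd_neg).1 (hqi.dvd_of_dvd_pow h8))
  · subst hb
    intro h
    rw [h0] at h
    have h5 : (m : ℤ) * 2 ^ (m + e) ∣ ∑ p ∈ range m, ((m.choose (p + 1) : ℤ) * 2 ^ (m - (p + 1))) *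
        ((e.choose (p + 1) * (p + 1).factorial * (2 * 2) ^ (p + 1) : ℕ) *
          (-2) ^ (e - (p + 1))) := by
      apply Finset.dvd_sum
      intro p hp
      rw [mem_range] at hp
      by_cases hpe : p + 1 ≤ e
      · have e1 : ((-2 : ℤ)) ^ (e - (p + 1)) = (-1) ^ (e - (p + 1)) * 2 ^ (e - (p + 1)) := by
          rw [← mul_pow]; norm_num
        have e2 : ((2 : ℤ)) ^ (m - (p + 1)) * (2 ^ (e - (p + 1)) * (4 : ℤ) ^ (p + 1)) =
            2 ^ (m + e) := by
          rw [show (4 : ℤ) = 2 ^ 2 by norm_num, ← pow_mul, ← pow_add, ← pow_add]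
          congr 1
          omega
        have e3 : (m.choose (p + 1) : ℤ) * (p + 1).factorial = m * ((m - 1).descFactorial p : ℕ) := by
          have h6 := Nat.descFactorial_eq_factorial_mul_choose m (p + 1)
          have h7 : m.descFactorial (p + 1) = m * (m - 1).descFactorial p := by
            obtain ⟨m', rfl⟩ : ∃ m', m = m' + 1 := ⟨m - 1, by omega⟩
            rw [Nat.succ_descFactorial_succ, Nat.add_sub_cancel]
          rw [h7] at h6
          have h8 : ((m * (m - 1).descFactorial p : ℕ) : ℤ) =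
              (((p + 1).factorial * m.choose (p + 1) : ℕ) : ℤ) := by exact_mod_cast h6
          push_cast at h8
          linear_combination -h8
        refine ⟨((m - 1).descFactorial p : ℕ) * (e.choose (p + 1)) * (-1) ^ (e - (p + 1)), ?_⟩
        rw [e1]
        push_cast
        linear_combination ((m.choose (p + 1) : ℤ) * (e.choose (p + 1) * (p + 1).factorial) *
          (-1) ^ (e - (p + 1))) * e2 + ((e.choose (p + 1) : ℤ) * (-1) ^ (e - (p + 1)) * 2 ^ (m + e)) * e3
      · rw [Nat.choose_eq_zero_of_lt (by omega : e < p + 1)]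
        simp
    have h6 : (m : ℤ) * 2 ^ (m + e) ∣ 2 ^ m * (-2) ^ e := by
      rw [eq_neg_of_add_eq_zero_left h]
      exact (dvd_neg).2 h5
    have h7 : (2 : ℤ) ^ m * (-2) ^ e = (-1) ^ e * 2 ^ (m + e) := by
      rw [show (-2 : ℤ) = (-1) * 2 by norm_num, mul_pow, pow_add]
      ring
    rw [h7] at h6
    have h8 : (m : ℤ) * 2 ^ (m + e) ∣ 2 ^ (m + e) := by
      have h9 := h6.mul_left ((-1) ^ e)
      rwa [← mul_assoc, ← mul_pow, show (-1 : ℤ) * -1 = 1 by norm_num, one_pow, one_mul] at h9
    have h10 : (0 : ℤ) < 2 ^ (m + e) := by positivity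
    have h9 := Int.le_of_dvd h10 h8
    have h11 : (2 : ℤ) ≤ m := by exact_mod_cast hm
    nlinarith

theorem LAD : LAD_stmt := by
  intro V _ b m hb hT a c z h1 h2 hN hrel
  by_contra hz
  obtain ⟨N, hN0, hmin⟩ : ∃ N, z N = 0 ∧ ∀ N' < N, z N' ≠ 0 := by
    classical
    exact ⟨Nat.find hN, Nat.find_spec hN, fun N' h => Nat.find_min hN h⟩
  have hNpos : 0 < N := by
    rcases Nat.eq_zero_or_pos N with h | h
    · rw [h] at hN0
      exact absurd hN0 hz
    · exact h
  obtain ⟨e, rfl⟩ : ∃ e, N = e + 1 := ⟨N - 1, by omega⟩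
  have hze := hmin e (by omega)
  have hzero : ∀ r, e < r → z r = 0 := by
    intro r hr
    obtain ⟨s, rfl⟩ : ∃ s, r = e + 1 + s := ⟨r - (e + 1), by omega⟩
    clear hr
    induction s with
    | zero => exact hN0
    | succ s ih =>
      have h3 := h1 (e + 1 + s)
      rw [ih, map_zero] at h3
      exact hT (-2) _ (by norm_num) h3.symm
  have key := congrArg (a ^ e) hrel
  rw [map_zero, map_sum] at key
  have h3 : ∀ p ∈ range (m + 1), (a ^ e) (((m.choose p : ℤ) * 2 ^ (m - p)) • (c ^ p) (z p)) =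
      (((m.choose p : ℤ) * 2 ^ (m - p)) *
        ((e.choose p * p.factorial * (2 * b) ^ p : ℕ) * (-2) ^ (e - p))) • z e := by
    intro p _
    rw [map_smul]
    by_cases hpe : p ≤ e
    · have h4 := LAD_W h1 h2 hN0 p (e - p) (by omega)
      rw [show e - p + p = e by omega, show e - (e - p) = p by omega] at h4
      rw [h4, smul_smul]
    · rw [hzero p (by omega), map_zero, map_zero, smul_zero,
        Nat.choose_eq_zero_of_lt (by omega : e < p)]
      simp
  rw [sum_congr rfl h3, ← sum_smul] at key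
  exact hze (hT _ _ (LAD_S_ne (e := e) hb) key)

end lad

end Pool.Agent.helper27.PC
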