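import Pool.Agent.helper27.PC3.Stmt3
import Pool.Agent.helper14.PC2.LT

/-!
# PC project, third part: comparison of the norms
-/

namespace Pool.Agent.helper27.PC

open Module Finset

theorem LTG (hDL : DL_stmt) (hLB : LB_stmt) (hLG : LG_stmt) (hNZG : NZG_stmt) : LTG_stmt := by
  intro t n l h1 hs hn hbl
  obtain ⟨l₀, B, l₁, c, hl, hB, hc, hx1, hx2, hx3⟩ := hbl
  have hle : ∀ l : List ℕ, (∀ a ∈ l, 1 ≤ a) → l.Pairwise (· ≤ ·) → l.sum ≤ n →
      nrm (app yt l (Finsupp.single (vac n) 1)) ≤ nrm (app (xt t) l (Finsupp.single (vac n) 1)) := by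
    intro l h1 hs hn
    obtain ⟨C, _, hC⟩ := LT_grow hDL hLB hLG t n [] (by simp) l.length l rfl h1 hs (by simp)
      (by simpa using hn)
    have e : nrm (app (xt t) [] (Finsupp.single (vac n) (1 : ℤ))) -
        nrm (app yt [] (Finsupp.single (vac n) (1 : ℤ))) = 0 := sub_self _
    rw [e, mul_zero, List.nil_append] at hC
    linarith
  subst hl
  -- the copies of `c`
  have hmc : c ∈ l₀ ++ B ++ c :: l₁ := List.mem_append_right _ List.mem_cons_self
  have hc1 : 1 ≤ c := h1 c hmc
  have h1' : ∀ a ∈ l₀ ++ B, 1 ≤ a := fun a ha => h1 a (List.mem_append_left _ ha)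
  have hs' : (l₀ ++ B).Pairwise (· ≤ ·) := hs.sublist (List.sublist_append_left _ _)
  have hlec : ∀ a ∈ l₀ ++ B, a ≤ c := by
    intro a ha
    exact (List.pairwise_append.1 hs).2.2 a ha c List.mem_cons_self
  have hltB : ∀ b ∈ B, b < c := by
    intro b hb
    have h2 := hlec b (List.mem_append_right _ hb)
    have h3 := (hB b hb).2
    rcases Nat.lt_or_ge b c with h | h
    · exact h
    · exfalso
      have : b = c := le_antisymm h2 h
      rw [this] at h3
      exact (Nat.not_odd_iff_even.2 (by rw [← two_mul]; exact even_two_mul c)) h3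
  have hBne : B ≠ [] := by
    rintro rfl
    simp only [List.sum_nil] at hc
    split_ifs at hc <;> omega
  have hltc : ∀ a ∈ l₀ ++ B, a < c := by
    intro a ha
    rcases List.mem_append.1 ha with h | h
    · obtain ⟨b, hb⟩ := List.exists_mem_of_ne_nil B hBne
      have h2 := (List.pairwise_append.1 hs').2.2 a h b hb
      exact lt_of_le_of_lt h2 (hltB b hb)
    · exact hltB a h
  have hsum : (l₀ ++ B ++ c :: l₁).sum = (l₀ ++ B).sum + (c + l₁.sum) := by
    rw [List.sum_append, List.sum_cons]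
  have hnz := hNZG t n c l₀ B h1' hs' (by omega) (fun b hb => ⟨(hB b hb).1, (hB b hb).2, hltB b hb⟩) hc
    hx1 hx2 hx3 hc1
  -- split `c :: l₁`
  have hs2 : (c :: l₁).Pairwise (· ≤ ·) := hs.sublist (List.sublist_append_right _ _)
  obtain ⟨j, l', hj, hl', hs''⟩ : ∃ (j : ℕ) (l' : List ℕ), c :: l₁ = List.replicate (j + 1) c ++ l' ∧
      (∀ x ∈ l', c < x) ∧ l'.Pairwise (· ≤ ·) := by
    have key : ∀ l : List ℕ, l.Pairwise (· ≤ ·) → (∀ x ∈ l, c ≤ x) →
        ∃ (j : ℕ) (l' : List ℕ), l = List.replicate j c ++ l' ∧ (∀ x ∈ l', c < x) ∧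
          l'.Pairwise (· ≤ ·) := by
      intro l
      induction l with
      | nil => exact fun _ _ => ⟨0, [], rfl, by simp, List.Pairwise.nil⟩
      | cons a l ih =>
        intro hs hc
        have ha := hc a List.mem_cons_self
        rcases Nat.lt_or_ge c a with h | h
        · refine ⟨0, a :: l, rfl, ?_, hs⟩
          intro x hx
          rcases List.mem_cons.1 hx with hx | hx
          · rw [hx]; exact h
          · exact lt_of_lt_of_le h ((List.pairwise_cons.1 hs).1 x hx)
        · have hac : a = c := le_antisymm h ha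
          obtain ⟨j, l', h2, h3, h4⟩ := ih (List.pairwise_cons.1 hs).2
            (fun x hx => hc x (List.mem_cons_of_mem _ hx))
          refine ⟨j + 1, l', ?_, h3, h4⟩
          rw [hac, h2]
          rfl
    obtain ⟨j, l', h2, h3, h4⟩ := key l₁ (List.pairwise_cons.1 hs2).2 (List.pairwise_cons.1 hs2).1
    exact ⟨j, l', by rw [h2]; rfl, h3, h4⟩
  rw [hj] at hs h1 hn ⊢
  have hsum1 : (l₀ ++ B ++ (List.replicate (j + 1) c ++ l')).sum =
      (l₀ ++ B).sum + (j + 1) * c + l'.sum := by
    rw [List.sum_append, List.sum_append (l₁ := List.replicate (j + 1) c), List.sum_replicate,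
      smul_eq_mul]
    ring
  rw [hsum1] at hn
  have hb0 := hle (l₀ ++ B) h1' hs' (by omega)
  have hx := (LT_step_x hDL hLG t n c (j + 1) hc1 (l₀ ++ B) h1' (by omega)).2 (by omega) hnz
  have hy := LT_step_y hDL hLB hLG n c (j + 1) hc1 (l₀ ++ B) h1' hltc (by omega)
  have hcp := LT_c_pos (j := j + 1) (a := c) hc1
  have hD : nrm (app yt ((l₀ ++ B) ++ List.replicate (j + 1) c) (Finsupp.single (vac n) 1)) <
      nrm (app (xt t) ((l₀ ++ B) ++ List.replicate (j + 1) c)
        (Finsupp.single (vac n) 1)) := by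
    rw [hy]
    have := mul_le_mul_of_nonneg_left hb0 hcp.le
    linarith
  have h5 : ∀ x ∈ (l₀ ++ B) ++ List.replicate (j + 1) c, 1 ≤ x ∧ x ≤ c := by
    intro x hx
    rcases List.mem_append.1 hx with h | h
    · exact ⟨h1' x h, (hltc x h).le⟩
    · rw [(List.mem_replicate.1 h).2]
      exact ⟨hc1, le_refl _⟩
  obtain ⟨C, hC0, hC⟩ := LT_grow hDL hLB hLG t n ((l₀ ++ B) ++ List.replicate (j + 1) c)
    (fun x hx => (h5 x hx).1) l'.length l' rfl
    (fun x hx => h1 x (List.mem_append_right _ (List.mem_append_right _ hx))) hs''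
    (fun a ha x hx => lt_of_le_of_lt (h5 x hx).2 (hl' a ha)) (by
      rw [List.append_assoc, hsum1]
      exact hn)
  rw [List.append_assoc (l₀ ++ B)] at hC
  have := mul_pos hC0 (sub_pos.2 hD)
  linarith

end Pool.Agent.helper27.PC
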