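import Pool.Agent.helper27.PC3.NZG

/-!
# PC project, third part: nonvanishing, main theorem
-/

namespace Pool.Agent.helper27.PC

open Module Finset

section nzg2

theorem NZG_low0 (hLG : LG_stmt) (t : Bool) {n k a : ℕ} {u : St →₀ ℤ} (ha : 1 ≤ a) (hu : GV n k u)
    (hk : k < a) : Low (xt t) a u = 0 := (hLG ℤ (xt t) n k a u ha hu).2.2 hk

theorem NZG_vac_ne (n : ℕ) : Finsupp.single (vac n) (1 : ℤ) ≠ 0 := by
  rw [Finsupp.single_ne_zero]
  exact one_ne_zero

theorem NZG_EO_pos (t : Bool) {c : ℕ} (hc : 1 ≤ c) {u : St →₀ ℤ} (h : Low (xt t) c u = 0) :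
    YO t false (c : ℤ) u = 0 := by
  unfold YO EO
  rw [if_neg (by decide), if_neg (by omega), if_neg (by omega), Int.natAbs_natCast,
    LinearMap.smul_apply, h, smul_zero]

theorem NZG_par0 {c b : ℕ} (h : Odd (c + b)) : GRP_par false (c : ℤ) b := by
  unfold GRP_par
  rw [if_neg (by decide), Int.odd_sub']
  have h1 : Odd ((c : ℤ) + b) := by exact_mod_cast h
  rw [Int.odd_add'] at h1
  exact h1

/-- parity of the sum of numbers of equal parity -/
theorem NZG_sum_par {e : ℕ} : ∀ B : List ℕ, (∀ b ∈ B, Even (e + b)) → Even (B.sum + B.length * e) := by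
  intro B
  induction B with
  | nil => intro _; simp
  | cons b B ih =>
    intro h
    have h1 := ih fun x hx => h x (List.mem_cons_of_mem _ hx)
    have h2 := h b List.mem_cons_self
    rw [List.sum_cons, List.length_cons]
    have h3 := h1.add h2
    have h4 : b + B.sum + (B.length + 1) * e = B.sum + B.length * e + (e + b) := by ring
    rw [h4]
    exact h3

theorem NZG (hDL : DL_stmt) (hLAD : LAD_stmt) (hR1 : R1_stmt) (hR2 : R2_stmt) (hLB : LB_stmt)
    (hLG : LG_stmt) (hB1 : B1_stmt) (hB2 : B2_stmt) : NZG_stmt := by
  intro t n c l₀ B h1 hs hn hB hc hx1 hx2 hx3 hc1 hz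
  have h10 : ∀ a ∈ l₀, 1 ≤ a := fun a ha => h1 a (List.mem_append_left _ ha)
  have h1B : ∀ a ∈ B, 1 ≤ a := fun a ha => h1 a (List.mem_append_right _ ha)
  have hs0 : l₀.Pairwise (· ≤ ·) := hs.sublist (List.sublist_append_left _ _)
  have hsB : B.Pairwise (· ≤ ·) := hs.sublist (List.sublist_append_right _ _)
  rw [List.sum_append] at hn
  rw [LT_app_append] at hz
  have hz' := NZG_EO_pos t hc1 hz
  set u₀ := app (xt t) l₀ (Finsupp.single (vac n) (1 : ℤ)) with hu0
  have hgv0 : GV n l₀.sum u₀ := by
    have := LT_gv hLG (xt t) n l₀ 0 _ h10 (LT_gv0 n)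
    rwa [zero_add] at this
  have hu0ne : u₀ ≠ 0 := by
    intro h
    exact NZG_vac_ne n (NZG_app_ne hDL hLG t l₀ 0 _ h10 (LT_gv0 n) (by omega) h)
  have hpar : ∀ a ∈ B, ∀ b ∈ B, Even (a + b) := by
    intro a ha b hb
    have h2 := (hB a ha).2.1.add_odd (hB b hb).2.1
    have h3 : c + a + (c + b) = 2 * c + (a + b) := by ring
    rw [h3] at h2
    exact (Nat.even_add.1 h2).1 (even_two_mul c)
  by_cases hone : 1 ∈ B
  · -- parts 1
    have hl0 : l₀ = [] := by
      have h2 := (hB 1 hone).1
      rcases l₀ with _ | ⟨a, l⟩
      · rfl
      · exfalso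
        have := h10 a List.mem_cons_self
        rw [List.sum_cons] at h2
        omega
    have hsp := NZG_split hsB h1B
    set m := B.count 1 with hm
    set B'' := B.filter (fun x => decide (1 < x)) with hB''
    have hm1 : 1 ≤ m := List.count_pos_iff.2 hone
    have hsub : ∀ x ∈ B'', x ∈ B ∧ 1 < x := by
      intro x hx
      rw [hB'', List.mem_filter] at hx
      exact ⟨hx.1, by simpa using hx.2⟩
    have hsum : B.sum = m + B''.sum := by
      conv_lhs => rw [hsp]
      rw [List.sum_append, List.sum_replicate, smul_eq_mul, mul_one]
    have hodd : ∀ x ∈ B'', 3 ≤ x := by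
      intro x hx
      have h2 := hpar 1 hone x (hsub x hx).1
      have h3 := (hsub x hx).2
      rw [Nat.even_iff] at h2
      omega
    have happ : app (xt t) B u₀ = app (xt t) B'' (((Rib (xt t) 1) ^ m) u₀) := by
      conv_lhs => rw [hsp]
      rw [LT_app_append, LT_app_replicate]
    have hu0v : u₀ = Finsupp.single (vac n) 1 := by rw [hu0, hl0]; rfl
    have hgv1 : GV n m (((Rib (xt t) 1) ^ m) u₀) := by
      rw [← LT_app_replicate, hu0v]
      have := LT_gv hLG (xt t) n (List.replicate m 1) 0 _ (by
        intro a ha
        rw [(List.mem_replicate.1 ha).2]) (LT_gv0 n)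
      rwa [zero_add, List.sum_replicate, smul_eq_mul, mul_one] at this
    have hne1 : ((Rib (xt t) 1) ^ m) u₀ ≠ 0 := by
      intro h
      rw [← LT_app_replicate, hu0v] at h
      refine NZG_vac_ne n (NZG_app_ne hDL hLG t (List.replicate m 1) 0 _ (by
        intro a ha
        rw [(List.mem_replicate.1 ha).2]) (LT_gv0 n) ?_ h)
      rw [List.sum_replicate, smul_eq_mul]
      omega
    rw [happ] at hz'
    have hrec := NZG_rec hDL hLAD hR1 hR2 hLB hLG t hgv1 hne1 B''.length B'' rfl
      (hsB.sublist List.filter_sublist) false (c : ℤ) (by
        intro b hb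
        have hbB := (hsub b hb).1
        refine ⟨Or.inl (hodd b hb), ?_, NZG_par0 (hB b hbB).2.1⟩
        rw [← LT_app_replicate, hu0v]
        refine NZG_kill hLB hLG t _ 0 _ ?_ (LT_gv0 n) ?_ ?_
        · intro x hx
          rw [(List.mem_replicate.1 hx).2]
          have := hodd b hb
          refine ⟨le_refl _, by omega, ?_⟩
          rw [add_comm]
          exact hpar 1 hone b hbB
        · rw [List.sum_replicate, smul_eq_mul]
          omega
        · have := hodd b hb
          exact NZG_low0 hLG t (by omega) (LT_gv0 n) (by omega))
      (fun x hx y hy => hpar x (hsub x hx).1 y (hsub y hy).1) (by omega) (by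
        rw [hl0] at hn
        simp only [List.sum_nil, zero_add] at hn
        have : m + B''.sum ≤ n := by omega
        have h2 : ((m + B''.sum : ℕ) : ℤ) ≤ n := by exact_mod_cast this
        have h3 : (0 : ℤ) ≤ c := by positivity
        linarith) hz'
    rw [Bool.false_xor] at hrec
    have hcm : c ≤ m + B''.sum := by
      rw [← hsum]
      cases t
      · have : c < B.sum := by simpa using hc
        omega
      · simpa using hc
    have hpr := NZG_sum_par (e := 1) B'' (fun b hb => hpar 1 hone b (hsub b hb).1)
    have hcodd : Odd (c + 1) := (hB 1 hone).2.1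
    by_cases hneg : (c : ℤ) - B''.sum < 0
    · refine hne1 (NZG_YO_inj hDL t _ hneg hgv1 ?_ hrec)
      rw [hl0] at hn
      simp only [List.sum_nil, zero_add] at hn
      omega
    · obtain ⟨d, hd⟩ : ∃ d : ℕ, (c : ℤ) - B''.sum = d := ⟨((c : ℤ) - B''.sum).toNat, by omega⟩
      have hcd : c = B''.sum + d := by omega
      rw [hd, hu0v] at hrec
      refine hB1 t _ n m d (by omega) hm1 ?_ ?_ ?_ ?_ ?_ hrec
      · intro h
        have h2 : Odd B''.length := by simpa using h
        rw [mul_one] at hpr
        have h3 : Odd B''.sum := by
          rcases Nat.even_or_odd B''.sum with h4 | h4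
          · exact absurd (h4.add_odd h2) (Nat.not_odd_iff_even.2 hpr)
          · exact h4
        rw [hcd] at hcodd
        rcases Nat.even_or_odd d with h4 | h4
        · exfalso
          have := (h3.add_even h4).add_odd odd_one
          exact (Nat.not_odd_iff_even.2 this) hcodd
        · exact h4
      · intro h
        have h2 : Even B''.length := by
          rw [← Nat.not_odd_iff_even]
          simpa using h
        rw [mul_one] at hpr
        have h3 : Even B''.sum := by
          rcases Nat.even_or_odd B''.sum with h4 | h4
          · exact h4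
          · exact absurd (h4.add_even h2) (Nat.not_odd_iff_even.2 hpr)
        rw [hcd] at hcodd
        rcases Nat.even_or_odd d with h4 | h4
        · exact h4
        · exfalso
          have := (h3.add_odd h4).add_odd odd_one
          exact (Nat.not_odd_iff_even.2 this) hcodd
      · cases t
        · have h2 : c < B.sum := by simpa using hc
          simp only [Bool.false_eq_true, if_false]
          omega
        · simp only [if_true]
          omega
      · rintro ⟨ht, hm2, hd1⟩
        exact hx1 ⟨ht, hl0, hm2, by omega⟩
      · rintro ⟨ht, hm2, hd1⟩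
        exact hx2 ⟨ht, hl0, hm2, by omega⟩
  · by_cases htwo : B.count 2 = 1
    · -- one part 2
      have h2mem : 2 ∈ B := List.count_pos_iff.1 (by omega)
      have h2B : ∀ b ∈ B, 2 ≤ b := by
        intro b hb
        have h2 := h1B b hb
        have h3 : b ≠ 1 := fun h => hone (h ▸ hb)
        omega
      have hsp := NZG_split hsB h2B
      rw [htwo] at hsp
      set B'' := B.filter (fun x => decide (2 < x)) with hB''
      have hsub : ∀ x ∈ B'', x ∈ B ∧ 2 < x := by
        intro x hx
        rw [hB'', List.mem_filter] at hx
        exact ⟨hx.1, by simpa using hx.2⟩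
      have hsum : B.sum = 2 + B''.sum := by
        conv_lhs => rw [hsp]
        rw [List.sum_append, List.sum_replicate, smul_eq_mul, one_mul]
      have hlen : B.length = 1 + B''.length := by
        conv_lhs => rw [hsp]
        rw [List.length_append, List.length_replicate]
      have hev : ∀ x ∈ B'', Even x := by
        intro x hx
        have h2 := hpar 2 h2mem x (hsub x hx).1
        rw [Nat.even_iff] at h2 ⊢
        omega
      have happ : app (xt t) B u₀ = app (xt t) B'' (Rib (xt t) 2 u₀) := by
        conv_lhs => rw [hsp]
        rw [LT_app_append, LT_app_replicate, pow_one]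
      have hl0sum : l₀.sum < 2 := (hB 2 h2mem).1
      have hl0 : l₀ = [] ∨ l₀ = [1] := by
        rcases l₀ with _ | ⟨a, l⟩
        · exact Or.inl rfl
        · right
          have h2 := h10 a List.mem_cons_self
          rw [List.sum_cons] at hl0sum
          rcases l with _ | ⟨b, l⟩
          · have : a = 1 := by omega
            rw [this]
          · exfalso
            have := h10 b (by simp)
            rw [List.sum_cons] at hl0sum
            omega
      have hgv1 : GV n (l₀.sum + 2) (Rib (xt t) 2 u₀) :=
        (hLG ℤ (xt t) n _ 2 _ (by omega) hgv0).1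
      have hne1 : Rib (xt t) 2 u₀ ≠ 0 := by
        intro h
        exact hu0ne (NZG_inj hDL (LT_xt_sq t) (by omega) hgv0 (by omega) h)
      rw [happ] at hz'
      have hrec := NZG_rec hDL hLAD hR1 hR2 hLB hLG t hgv1 hne1 B''.length B'' rfl
        (hsB.sublist List.filter_sublist) false (c : ℤ) (by
          intro b hb
          obtain ⟨hbB, hb2⟩ := hsub b hb
          have hb4 : 4 ≤ b := by
            have := hev b hb
            rw [Nat.even_iff] at this
            omega
          refine ⟨Or.inl (by omega), ?_, NZG_par0 (hB b hbB).2.1⟩
          have h3 := NZG_kill hLB hLG t (a := b) [2] l₀.sum u₀ (by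
            intro x hx
            rw [List.mem_singleton] at hx
            rw [hx]
            refine ⟨by omega, by omega, ?_⟩
            exact (hev b hb).add even_two) hgv0 (by simp; omega)
            (NZG_low0 hLG t (by omega) hgv0 (hB b hbB).1)
          exact h3)
        (fun x hx y hy => hpar x (hsub x hx).1 y (hsub y hy).1) (by omega) (by
          have h2 : ((l₀.sum + 2 + B''.sum : ℕ) : ℤ) ≤ n := by
            have : l₀.sum + 2 + B''.sum ≤ n := by omega
            exact_mod_cast this
          have h3 : (0 : ℤ) ≤ c := by positivity
          linarith) hz'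
      rw [Bool.false_xor] at hrec
      have hcodd : Odd c := by
        have := (hB 2 h2mem).2.1
        rw [Nat.odd_iff] at this ⊢
        omega
      have hsumev : Even B''.sum := by
        have h3 := NZG_sum_par (e := 2) B'' (fun b hb => even_two.add (hev b hb))
        rw [Nat.even_iff] at h3 ⊢
        omega
      by_cases hneg : (c : ℤ) - B''.sum < 0
      · refine hne1 (NZG_YO_inj hDL t _ hneg hgv1 ?_ hrec)
        omega
      · have hcle : c ≤ 2 + B''.sum := by
          rw [← hsum]
          cases t
          · have : c < B.sum := by simpa using hc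
            omega
          · simpa using hc
        have hd1 : (c : ℤ) - B''.sum = 1 := by
          rw [Nat.odd_iff] at hcodd
          rw [Nat.even_iff] at hsumev
          omega
        rw [hd1] at hrec
        rcases hl0 with h | h
        · have e : u₀ = Finsupp.single (vac n) 1 := by rw [hu0, h]; rfl
          rw [e] at hrec
          exact (hB2 t _ n).1 (by omega) hrec
        · have e : u₀ = Rib (xt t) 1 (Finsupp.single (vac n) 1) := by rw [hu0, h]; rfl
          rw [e] at hrec
          have hs1 : l₀.sum = 1 := by rw [h]; rfl
          refine (hB2 t _ n).2 (by omega) ?_ hrec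
          rintro ⟨ht, hp⟩
          apply hx3
          refine ⟨ht, h, htwo, by omega, ?_⟩
          rw [hlen]
          have : ¬ Odd B''.length := by simpa using hp
          rw [Nat.not_odd_iff_even] at this
          exact odd_one.add_even this
    · -- general case
      have hrec := NZG_rec hDL hLAD hR1 hR2 hLB hLG t hgv0 hu0ne B.length B rfl hsB false (c : ℤ) (by
          intro b hb
          refine ⟨?_, NZG_low0 hLG t (h1B b hb) hgv0 (hB b hb).1, NZG_par0 (hB b hb).2.1⟩
          have h2 := h1B b hb
          have h3 : b ≠ 1 := fun h => hone (h ▸ hb)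
          by_cases hb2 : b = 2
          · refine Or.inr ⟨hb2, ?_⟩
            have : 0 < B.count 2 := List.count_pos_iff.2 (hb2 ▸ hb)
            omega
          · exact Or.inl (by omega))
        hpar (by omega) (by
          have h2 : ((l₀.sum + B.sum : ℕ) : ℤ) ≤ n := by exact_mod_cast hn
          have h3 : (0 : ℤ) ≤ c := by positivity
          linarith) hz'
      rw [Bool.false_xor] at hrec
      by_cases hneg : (c : ℤ) - B.sum < 0
      · refine hu0ne (NZG_YO_inj hDL t _ hneg hgv0 ?_ hrec)
        omega
      · cases t
        · have : c < B.sum := by simpa using hc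
          omega
        · have hcc : c ≤ B.sum := by simpa using hc
          have hce : c = B.sum := by omega
          have hlen : ¬ Odd B.length := by
            intro hodd
            obtain ⟨b, hb⟩ : ∃ b, b ∈ B := by
              rcases B with _ | ⟨b, B⟩
              · simp at hodd
              · exact ⟨b, List.mem_cons_self⟩
            have h3 := NZG_sum_par (e := b) B (fun x hx => hpar b hb x hx)
            have h4 := (hB b hb).2.1
            rw [← hce] at h3
            have h5 : Odd (B.sum + B.length * b) := by
              rw [← hce, Nat.odd_add]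
              rw [Nat.odd_add] at h4
              rw [h4, Nat.even_mul]
              constructor
              · exact fun h => Or.inr h
              · rintro (h | h)
                · exact absurd h (Nat.not_even_iff_odd.2 hodd)
                · exact h
            rw [← hce] at h5
            exact (Nat.not_odd_iff_even.2 h3) h5
          have e1 : decide (Odd B.length) = false := by simpa using hlen
          rw [e1, hce, sub_self] at hrec
          exact hu0ne (NZG_E0 hgv0 hrec)

end nzg2

end Pool.Agent.helper27.PC
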