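import Pool.Agent.helper27.PC3.Stmt3
import Pool.Agent.helper79.PC2.LB
import Pool.Agent.helper14.PC2.LT

/-!
# PC project, third part: commutators with the creation operators
-/

namespace Pool.Agent.helper27.PC

open Module Finset

section r1

theorem R1_rib_congr {w w' : Lab → ℤ} {a : ℕ} {u : St →₀ ℤ}
    (h : ∀ S ∈ u.support, ∀ l ∈ S, up a l ∉ S → w l = w' l) : Rib w a u = Rib w' a u := by
  refine LB_ext _ _ u fun S hS => ?_
  rw [Rib_single, Rib_single]
  refine sum_congr rfl fun l hl => ?_
  unfold addable at hl
  rw [mem_filter] at hl
  rw [h S hS l hl.1 hl.2]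

theorem R1_low_congr {w w' : Lab → ℤ} {a : ℕ} {u : St →₀ ℤ}
    (h : ∀ S ∈ u.support, ∀ l, l ∉ S → w l = w' l) : Low w a u = Low w' a u := by
  refine LB_ext _ _ u fun S hS => ?_
  rw [LB_Low_single, LB_Low_single]
  refine sum_congr rfl fun l hl => ?_
  rw [mem_filter] at hl
  rw [h S hS _ hl.2.2]

theorem R1_rib_smul (w : Lab → ℤ) (c : ℤ) (a : ℕ) (u : St →₀ ℤ) :
    Rib (fun l => c * w l) a u = c • Rib w a u := by
  have : Rib (fun l => c * w l) a = c • Rib w a := by
    apply Finsupp.lhom_ext'
    intro S
    apply LinearMap.ext_ring
    rw [LinearMap.comp_apply, LinearMap.comp_apply, LinearMap.smul_apply, Finsupp.lsingle_apply,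
      Rib_single, Rib_single, smul_sum]
    refine sum_congr rfl fun l _ => ?_
    rw [Finsupp.smul_single, smul_eq_mul]
    congr 1
    ring
  rw [this, LinearMap.smul_apply]

theorem R1_low_smul (w : Lab → ℤ) (c : ℤ) (a : ℕ) (u : St →₀ ℤ) :
    Low (fun l => c * w l) a u = c • Low w a u := by
  have : Low (fun l => c * w l) a = c • Low w a := by
    apply Finsupp.lhom_ext'
    intro S
    apply LinearMap.ext_ring
    rw [LinearMap.comp_apply, LinearMap.comp_apply, LinearMap.smul_apply, Finsupp.lsingle_apply,
      LB_Low_single, LB_Low_single, smul_sum]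
    refine sum_congr rfl fun l _ => ?_
    rw [Finsupp.smul_single, smul_eq_mul]
    congr 1
    ring
  rw [this, LinearMap.smul_apply]

theorem R1_dg_smul (w : Lab → ℤ) (c : ℤ) (u : St →₀ ℤ) :
    Dg (fun l => c * w l) u = c • Dg w u := by
  have : Dg (fun l => c * w l) = c • Dg w := by
    apply Finsupp.lhom_ext'
    intro S
    apply LinearMap.ext_ring
    rw [LinearMap.comp_apply, LinearMap.comp_apply, LinearMap.smul_apply, Finsupp.lsingle_apply]
    unfold Dg
    rw [Finsupp.linearCombination_single, Finsupp.linearCombination_single, one_smul, one_smul,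
      Finsupp.smul_single, smul_eq_mul, mul_sum]
  rw [this, LinearMap.smul_apply]

theorem R1_xt_up (t : Bool) (a : ℕ) (l : Lab) : xt t (up a l) = (-1) ^ a * xt t l := by
  unfold xt up
  simp only [pow_add]
  ring

theorem R1_xt_dn (t : Bool) {a : ℕ} {l : Lab} (h : a ≤ l.2) : xt t (dn a l) = (-1) ^ a * xt t l := by
  have h1 := R1_xt_up t a (dn a l)
  rw [LB_updn h] at h1
  rw [h1, ← mul_assoc, ← pow_add, ← two_mul, pow_mul]
  simp

theorem R1_sq (t : Bool) (l : Lab) : xt t l * xt t l = 1 := LT_xt_sq t l

theorem R1_hole {n k : ℕ} {u : St →₀ ℤ} (hu : GV n k u) {S : St} (hS : S ∈ u.support) {l : Lab}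
    (hl : l ∉ S) : n ≤ k + l.2 :=
  SD_good_hole (hu S hS) (b := l.1) (h := l.2) (fun h' => hl (SD_mem_pos.1 h'))

theorem R1_natAbs {d : ℤ} {b : ℕ} (hd : d < 0) : (d - b).natAbs = d.natAbs + b := by omega

theorem R1_even_odd {a b : ℕ} (h : Odd ((a : ℤ) - b)) : (-1 : ℤ) ^ a = - (-1) ^ b := by
  rcases Nat.even_or_odd a with ha | ha <;> rcases Nat.even_or_odd b with hb | hb
  · exfalso
    rw [Int.odd_sub] at h
    have := h.2 (by exact_mod_cast hb)
    rw [← Int.not_even_iff_odd] at this
    exact this (by exact_mod_cast ha)
  · rw [ha.neg_one_pow, hb.neg_one_pow]; norm_num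
  · rw [ha.neg_one_pow, hb.neg_one_pow]
  · exfalso
    rw [Int.odd_sub] at h
    have := h.1 (by exact_mod_cast ha)
    rw [← Int.not_odd_iff_even] at this
    exact this (by exact_mod_cast hb)

theorem R1 (hRRC : RRC_stmt) (hLB : LB_stmt) : R1_stmt := by
  intro t n k b d u hb hu hk
  rcases lt_trichotomy d 0 with hd | hd | hd
  · -- creation
    set a := d.natAbs with ha
    have ha1 : 1 ≤ a := by omega
    have hdb : d - b < 0 := by omega
    have hab : (d - b).natAbs = a + b := by omega
    constructor
    · intro hodd
      have e0 : (-1 : ℤ) ^ a = - (-1) ^ b := by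
        apply R1_even_odd
        have : ((a : ℤ) - b) = (d - b) - 2 * d := by omega
        rw [this]
        exact hodd.sub_even (even_two_mul d)
      unfold EO PO
      rw [if_pos hd, if_pos hdb, ← ha, hab, (hRRC ℤ (xt t) (xt t) a b u ha1 hb).1]
      rw [← R1_rib_smul]
      congr 2
      funext l
      rw [R1_xt_up, R1_xt_up, e0]
      have := R1_sq t l
      linear_combination (2 * (-1) ^ b) * this
    · intro hodd
      have ho : Odd a := Int.natAbs_odd.2 hodd
      unfold EO PO
      rw [if_pos hd, if_pos hdb, ← ha, hab, (hRRC ℤ (fun _ => 1) (xt t) a b u ha1 hb).1,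
        ← R1_rib_smul]
      congr 2
      funext l
      rw [R1_xt_up, ho.neg_one_pow]
      ring
  · subst hd
    constructor
    · intro hodd
      have ho : Odd b := by
        have : Odd (b : ℤ) := by simpa using hodd.neg
        exact_mod_cast this
      have hdb : (0 : ℤ) - b < 0 := by omega
      have hab : ((0 : ℤ) - b).natAbs = b := by omega
      unfold EO PO
      rw [if_neg (lt_irrefl _), if_pos rfl, if_pos hdb, hab, LinearMap.sub_apply,
        LinearMap.sub_apply, map_sub, LinearMap.smul_apply, LinearMap.smul_apply, map_smul,
        LinearMap.id_apply, LinearMap.id_apply, sub_sub_sub_cancel_right]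
      rw [(hRRC ℤ (xt t) (xt t) b b u hb hb).2, ← R1_rib_smul]
      congr 2
      funext l
      rw [R1_xt_up, ho.neg_one_pow]
      have := R1_sq t l
      linear_combination (-2) * this
    · intro h
      exact absurd h (by decide)
  · set a := d.natAbs with ha
    have ha1 : 1 ≤ a := by omega
    have hda : d = a := by omega
    constructor
    · intro hodd
      have e0 : (-1 : ℤ) ^ a = - (-1) ^ b := R1_even_odd (by rw [← hda]; exact hodd)
      have hne : a ≠ b := by
        intro h
        rw [hda, h, sub_self] at hodd
        exact absurd hodd (by decide)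
      have hLBa := hLB ℤ (xt t) (xt t) n k a b u ha1 hb hu hk
      have hE : ∀ v : St →₀ ℤ, EO t d v = ((-1 : ℤ) ^ a) • Low (xt t) a v := by
        intro v
        unfold EO
        rw [if_neg (by omega), if_neg (by omega), ← ha, LinearMap.smul_apply]
      rw [hE, hE, map_smul, ← smul_sub]
      have hpp : (-1 : ℤ) ^ b * (-1) ^ b = 1 := by rw [← mul_pow]; simp
      rcases lt_or_gt_of_ne hne with hlt | hlt
      · rw [hLBa.1 hlt]
        have hdb : d - b < 0 := by omega
        have hab : (d - b).natAbs = b - a := by omega
        unfold PO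
        rw [if_pos hdb, hab, ← R1_rib_smul, ← R1_rib_smul]
        congr 2
        funext l
        have e1 : (-1 : ℤ) ^ (b - a) = -1 := by
          have h2 : (-1 : ℤ) ^ (b - a) * (-1) ^ a = (-1) ^ b := by
            rw [← pow_add]; congr 1; omega
          rw [e0] at h2
          linear_combination (-(-1) ^ b) * h2 + (-1 + -(-1 : ℤ) ^ (b - a)) * hpp
        rw [R1_xt_up, e1, e0]
        have h3 := R1_sq t l
        have h4 := R1_sq t (dn a l)
        linear_combination ((-1) ^ b) * h3 + ((-1) ^ b) * h4
      · rw [hLBa.2.2 hlt]
        have hdb : ¬ (d - b < 0) := by omega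
        have hab : (d - b).natAbs = a - b := by omega
        unfold PO
        rw [if_neg hdb, hab, ← R1_low_smul, ← R1_low_smul]
        congr 2
        funext l
        have e1 : (-1 : ℤ) ^ (a - b) = -1 := by
          have h2 : (-1 : ℤ) ^ (a - b) * (-1) ^ b = (-1) ^ a := by
            rw [← pow_add]; congr 1; omega
          rw [e0] at h2
          linear_combination ((-1) ^ b) * h2 - ((-1 : ℤ) ^ (a - b) + 1) * hpp
        rw [R1_xt_up, e1, e0]
        have h3 := R1_sq t l
        have h4 := R1_sq t (dn b l)
        linear_combination ((-1) ^ b) * h3 + ((-1) ^ b) * h4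
    · intro hodd
      have ho : Odd a := Int.natAbs_odd.2 hodd
      have hLBa := hLB ℤ (fun _ => (1 : ℤ)) (xt t) n k a b u ha1 hb hu hk
      have hP : ∀ v : St →₀ ℤ, PO d v = Low (fun _ => 1) a v := by
        intro v
        unfold PO
        rw [if_neg (by omega), ← ha]
      rw [hP, hP]
      rcases lt_trichotomy a b with hlt | hlt | hlt
      · rw [hLBa.1 hlt]
        have hdb : d - b < 0 := by omega
        have hab : (d - b).natAbs = b - a := by omega
        unfold EO
        rw [if_pos hdb, hab, ← R1_rib_smul]
        apply R1_rib_congr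
        intro S hS l hl hl'
        have h1 := R1_hole hu hS hl'
        simp only [up] at h1
        rw [R1_xt_dn t (by omega), ho.neg_one_pow]
        ring
      · rw [hLBa.2.1 hlt]
        have hd0 : d - b = 0 := by omega
        unfold EO
        rw [hd0, if_neg (lt_irrefl _), if_pos rfl, LinearMap.sub_apply, LinearMap.smul_apply,
          LinearMap.id_apply]
        have key : ∀ S ∈ u.support, Dg (fun l => 1 * xt t l - if b ≤ l.2 then 1 * xt t (dn b l) else 0)
            (Finsupp.single S (1 : ℤ)) =
            ((2 : ℤ) • (Dg (xt t) - (if t then (1 : ℤ) else 0) • LinearMap.id) :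
              (St →₀ ℤ) →ₗ[ℤ] (St →₀ ℤ)) (Finsupp.single S 1) := by
          intro S hS
          rw [LinearMap.smul_apply, LinearMap.sub_apply, LinearMap.smul_apply, LinearMap.id_apply]
          unfold Dg
          rw [Finsupp.linearCombination_single, Finsupp.linearCombination_single, one_smul, one_smul,
            Finsupp.smul_single, ← Finsupp.single_sub, Finsupp.smul_single]
          congr 1
          rw [smul_eq_mul, smul_eq_mul, mul_one]
          have hob : Odd b := hlt ▸ ho
          have e1 : ∀ l ∈ S, (1 * xt t l - if b ≤ l.2 then 1 * xt t (dn b l) else 0) =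
              2 * xt t l - if b ≤ l.2 then 0 else xt t l := by
            intro l _
            split_ifs with h
            · rw [R1_xt_dn t h, hob.neg_one_pow]; ring
            · ring
          rw [sum_congr rfl e1, sum_sub_distrib, ← mul_sum]
          have e2 : ∑ l ∈ S, (if b ≤ l.2 then 0 else xt t l) = ∑ l ∈ box b, xt t l := by
            have e4 : ∀ l ∈ S, (if b ≤ l.2 then 0 else xt t l) = if l.2 < b then xt t l else 0 := by
              intro l _
              split_ifs with h1 h2 h2
              · omega
              · rfl
              · rfl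
              · omega
            rw [sum_congr rfl e4, ← sum_filter]
            apply sum_congr _ fun _ _ => rfl
            ext l
            rw [mem_filter, mem_box]
            constructor
            · rintro ⟨_, h⟩
              omega
            · intro h
              refine ⟨?_, by omega⟩
              by_contra h'
              have := R1_hole hu hS h'
              omega
          have e3 : ∑ l ∈ box b, xt t l = 2 * (if t then (1 : ℤ) else 0) := by
            have h5 : ∑ p ∈ range b, (-1 : ℤ) ^ p = 1 := by
              obtain ⟨c, hc⟩ := hob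
              rw [hc]
              have : ∀ c : ℕ, ∑ p ∈ range (2 * c + 1), (-1 : ℤ) ^ p = 1 := by
                intro c
                induction c with
                | zero => simp
                | succ c ih =>
                  rw [show 2 * (c + 1) + 1 = (2 * c + 1) + 1 + 1 by ring, sum_range_succ,
                    sum_range_succ, ih, pow_succ, pow_mul]
                  norm_num
                  rw [pow_succ, pow_succ, pow_mul]
                  norm_num
              exact this c
            unfold box
            rw [sum_product]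
            have h6 : ∀ s : Bool, ∑ p ∈ range b, xt t (s, p) = (if t || s then 1 else -1) := by
              intro s
              unfold xt
              cases t <;> cases s <;> simp [h5]
            rw [Fintype.sum_bool, h6, h6]
            cases t <;> simp
          rw [e2, e3]
          ring
        have := LB_ext (Dg (fun l => 1 * xt t l - if b ≤ l.2 then 1 * xt t (dn b l) else 0))
          ((2 : ℤ) • (Dg (xt t) - (if t then (1 : ℤ) else 0) • LinearMap.id)) u key
        rw [this, LinearMap.smul_apply, LinearMap.sub_apply, LinearMap.smul_apply,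
          LinearMap.id_apply]
      · rw [hLBa.2.2 hlt]
        have hdb : 0 < d - b := by omega
        have hab : (d - b).natAbs = a - b := by omega
        unfold EO
        rw [if_neg (by omega), if_neg (by omega), hab, LinearMap.smul_apply, smul_smul,
          ← R1_low_smul]
        apply R1_low_congr
        intro S hS l hl
        have h1 := R1_hole hu hS hl
        have h2 : (-1 : ℤ) ^ (a - b) * (-1) ^ b = -1 := by
          rw [← pow_add]
          have : a - b + b = a := by omega
          rw [this, ho.neg_one_pow]
        have hpp : (-1 : ℤ) ^ b * (-1) ^ b = 1 := by rw [← mul_pow]; simp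
        have h3 : (-1 : ℤ) ^ (a - b) = - (-1) ^ b := by
          linear_combination ((-1) ^ b) * h2 - ((-1 : ℤ) ^ (a - b)) * hpp
        rw [R1_xt_dn t (by omega), R1_xt_up, h3]
        ring

end r1

end Pool.Agent.helper27.PC
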