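import Pool.Agent.helper27.PC3.NZP

/-!
# PC project, third part: two blocks
-/

namespace Pool.Agent.helper27.PC

open Module Finset

/-- `a ≤ b` for type `B`, `a < b` for type `D` -/
def LeT (t : Bool) (a b : ℕ) : Prop := if t then a ≤ b else a < b

/-- first kind: the parts `B` have the parity different from `c` and are larger than the sum of `L`; `c` is at
most (type `D`: less than) the sum of `B`; some exceptions -/
def Block1 (t : Bool) (L B : List ℕ) (c : ℕ) : Prop :=
  (∀ b ∈ B, L.sum < b ∧ Odd (c + b)) ∧ LeT t c B.sum ∧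
    ¬ (t = true ∧ L = [] ∧ B.count 1 = 2 ∧ B.sum = c + 1) ∧
    ¬ (t = false ∧ L = [] ∧ B.count 1 = 2 ∧ B.sum = c + 2) ∧
    ¬ (t = false ∧ L = [1] ∧ B.count 2 = 1 ∧ B.sum = c + 1 ∧ Odd B.length)

/-- second kind: `B` has an odd number of parts, they have the parity different from `c` and are larger than
the sum of `L ++ B₀`; the parts `B₀` have the same parity and are larger than the sum of `L`; `c` is larger than
the sum of `B` and at most (type `D`: less than) the sum of `B₀` and `B`; some exceptions -/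
def Block2 (t : Bool) (L B₀ B : List ℕ) (c : ℕ) : Prop :=
  Odd B.length ∧ (∀ b ∈ B, (L ++ B₀).sum < b ∧ Odd (c + b)) ∧
    (∀ a ∈ B₀, L.sum < a ∧ ∀ a' ∈ B₀, Even (a + a')) ∧ B.sum < c ∧ LeT t c (B₀.sum + B.sum) ∧
    ¬ (t = true ∧ L = [] ∧ B₀.count 1 = 2 ∧ B₀.sum + B.sum = c + 1) ∧
    ¬ (t = false ∧ L = [] ∧ B₀.count 1 = 2 ∧ B₀.sum + B.sum = c + 2) ∧
    ¬ (t = false ∧ L = [1] ∧ B₀.count 2 = 1 ∧ B₀.sum + B.sum = c + 1 ∧ Even B₀.length)

/-- the condition of the negativity theorem on the list `l` of the negative cycle lengths (in increasing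
order) -/
def NegType (t : Bool) (l : List ℕ) : Prop :=
  (∃ (L B l₁ : List ℕ) (c : ℕ), l = L ++ B ++ c :: l₁ ∧ Block1 t L B c) ∨
  (∃ (L B₀ B l₁ : List ℕ) (c : ℕ), l = L ++ B₀ ++ B ++ c :: l₁ ∧ Block2 t L B₀ B c)

section nzh

theorem NZH_B3 (hR1 : R1_stmt) (hLG : LG_stmt) {n : ℕ} (hn : 3 ≤ n) :
    YO true false 3 (Rib (xt true) 2 (Rib (xt true) 1 (Finsupp.single (vac n) (1 : ℤ)))) ≠ 0 := by
  intro hz
  set w : St →₀ ℤ := Finsupp.single (vac n) (1 : ℤ) with hw
  have hgv0 : GV n 0 w := LT_gv0 n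
  have hgv1 : GV n 1 (Rib (xt true) 1 w) := by
    have := (hLG ℤ (xt true) n 0 1 w le_rfl hgv0).1
    simpa using this
  have h1 := (hR1 true n 1 2 3 _ (by omega) hgv1 (by omega)).1 (by decide)
  have h2 : EO true 3 (Rib (xt true) 1 w) = 0 :=
    (R2_deg hLG true false hgv1 (d := 3) (by simp)).2 (by norm_num)
  have h3 : EO true 3 (Rib (xt true) 2 (Rib (xt true) 1 w)) = 0 := hz
  rw [h2, h3, map_zero, sub_zero] at h1
  have h4 := (hR1 true n 0 1 1 w le_rfl hgv0 (by omega)).2 (by decide)
  have h5 : PO 1 w = 0 := (R2_deg hLG true true hgv0 (d := 1) (by norm_num)).2 (by norm_num)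
  rw [h5, map_zero, sub_zero] at h4
  have e1 : (3 : ℤ) - (2 : ℕ) = 1 := by norm_num
  have e2 : (1 : ℤ) - (1 : ℕ) = 0 := by norm_num
  rw [e1, h4] at h1
  rw [e2, smul_smul] at h1
  have h6 : EO true 0 w = 0 := by
    rcases smul_eq_zero.1 h1.symm with h | h
    · norm_num at h
    · exact h
  exact NZG_vac_ne n (NZG_E0 hgv0 h6)

theorem NZH (hDL : DL_stmt) (hLAD : LAD_stmt) (hR1 : R1_stmt) (hR2 : R2_stmt) (hLB : LB_stmt)
    (hLG : LG_stmt) (hB1 : B1_stmt) (hB2 : B2_stmt) (t : Bool) (n c : ℕ) (L B₀ B : List ℕ)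
    (h1 : ∀ a ∈ L ++ B₀ ++ B, 1 ≤ a) (hs : (L ++ B₀ ++ B).Pairwise (· ≤ ·))
    (hn : (L ++ B₀ ++ B).sum ≤ n) (hbl : Block2 t L B₀ B c) :
    Low (xt t) c (app (xt t) (L ++ B₀ ++ B) (Finsupp.single (vac n) 1)) ≠ 0 := by
  obtain ⟨hodd, hB, hB₀, hcB, hc, hx1, hx2, hx3⟩ := hbl
  intro hz
  have hc1 : 1 ≤ c := by omega
  have h10 : ∀ a ∈ L ++ B₀, 1 ≤ a := fun a ha => h1 a (List.mem_append_left _ ha)
  have h1B : ∀ a ∈ B, 1 ≤ a := fun a ha => h1 a (List.mem_append_right _ ha)
  have hs0 : (L ++ B₀).Pairwise (· ≤ ·) := hs.sublist (List.sublist_append_left _ _)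
  have hsB : B.Pairwise (· ≤ ·) := hs.sublist (List.sublist_append_right _ _)
  rw [List.sum_append] at hn
  rw [LT_app_append] at hz
  have hz' := NZG_EO_pos t hc1 hz
  set u₀ := app (xt t) (L ++ B₀) (Finsupp.single (vac n) (1 : ℤ)) with hu0
  have hgv0 : GV n (L ++ B₀).sum u₀ := by
    have := LT_gv hLG (xt t) n (L ++ B₀) 0 _ h10 (LT_gv0 n)
    rwa [zero_add] at this
  have hu0ne : u₀ ≠ 0 := by
    intro h
    exact NZG_vac_ne n (NZG_app_ne hDL hLG t (L ++ B₀) 0 _ h10 (LT_gv0 n) (by omega) h)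
  have hpar : ∀ a ∈ B, ∀ b ∈ B, Even (a + b) := by
    intro a ha b hb
    have h2 := (hB a ha).2.add_odd (hB b hb).2
    have h3 : c + a + (c + b) = 2 * c + (a + b) := by ring
    rw [h3] at h2
    exact (Nat.even_add.1 h2).1 (even_two_mul c)
  have hcle : c ≤ B₀.sum + B.sum := by
    unfold LeT at hc
    split_ifs at hc <;> omega
  have hB₀pos : 1 ≤ B₀.sum := by omega
  have hLB₀ : (L ++ B₀).sum = L.sum + B₀.sum := List.sum_append
  have hBne : B ≠ [] := by
    rintro rfl
    simp at hodd
  obtain ⟨b₁, hb₁⟩ := List.exists_mem_of_ne_nil B hBne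
  have h2B : ∀ b ∈ B, 2 ≤ b := by
    intro b hb
    have := (hB b hb).1
    omega
  by_cases htwo : B.count 2 = 1
  · have h2mem : 2 ∈ B := List.count_pos_iff.1 (by omega)
    have hsum2 := (hB 2 h2mem).1
    -- `L = []`, `B₀ = [1]`
    have hL : L = [] := by
      rcases L with _ | ⟨a, L⟩
      · rfl
      · exfalso
        have := h10 a (by simp)
        rw [List.cons_append, List.sum_cons, List.sum_append] at hsum2
        omega
    have hB₀1 : B₀ = [1] := by
      rw [hL, List.nil_append] at hsum2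
      rcases B₀ with _ | ⟨a, B₀⟩
      · simp at hB₀pos
      · have h2 := h10 a (by simp)
        rw [List.sum_cons] at hsum2
        rcases B₀ with _ | ⟨b, B₀⟩
        · have : a = 1 := by omega
          rw [this]
        · exfalso
          have := h10 b (by simp)
          rw [List.sum_cons] at hsum2
          omega
    have hs1 : B₀.sum = 1 := by rw [hB₀1]; rfl
    rw [hs1] at hc
    cases t
    · unfold LeT at hc
      rw [if_neg (by decide)] at hc
      omega
    · have hce : c = B.sum + 1 := by omega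
      have hsp := NZG_split hsB h2B
      rw [htwo] at hsp
      set B'' := B.filter (fun x => decide (2 < x)) with hB''
      have hsub : ∀ x ∈ B'', x ∈ B ∧ 2 < x := by
        intro x hx
        rw [hB'', List.mem_filter] at hx
        exact ⟨hx.1, by simpa using hx.2⟩
      have hsum : B.sum = 2 + B''.sum := by
        conv_lhs => rw [hsp]
        rw [List.sum_append, List.sum_replicate, smul_eq_mul, one_mul]
      have hlen : B.length = 1 + B''.length := by
        conv_lhs => rw [hsp]
        rw [List.length_append, List.length_replicate]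
      have hev : ∀ x ∈ B'', Even x := by
        intro x hx
        have h2 := hpar 2 h2mem x (hsub x hx).1
        rw [Nat.even_iff] at h2 ⊢
        omega
      have happ : app (xt true) B u₀ = app (xt true) B'' (Rib (xt true) 2 u₀) := by
        conv_lhs => rw [hsp]
        rw [LT_app_append, LT_app_replicate, pow_one]
      have hgv1 : GV n ((L ++ B₀).sum + 2) (Rib (xt true) 2 u₀) :=
        (hLG ℤ (xt true) n _ 2 _ (by omega) hgv0).1
      have hne1 : Rib (xt true) 2 u₀ ≠ 0 := by
        intro h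
        exact hu0ne (NZG_inj hDL (LT_xt_sq true) (by omega) hgv0 (by omega) h)
      rw [happ] at hz'
      have hrec := NZG_rec hDL hLAD hR1 hR2 hLB hLG true hgv1 hne1 B''.length B'' rfl
        (hsB.sublist List.filter_sublist) false (c : ℤ) (by
          intro b hb
          obtain ⟨hbB, hb2⟩ := hsub b hb
          have hb4 : 4 ≤ b := by
            have := hev b hb
            rw [Nat.even_iff] at this
            omega
          refine ⟨Or.inl (by omega), ?_, NZG_par0 (hB b hbB).2⟩
          have h3 := NZG_kill hLB hLG true (a := b) [2] (L ++ B₀).sum u₀ (by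
            intro x hx
            rw [List.mem_singleton] at hx
            rw [hx]
            refine ⟨by omega, by omega, ?_⟩
            exact (hev b hb).add even_two) hgv0 (by
              simp only [List.sum_cons, List.sum_nil]; omega)
            (NZG_low0 hLG true (by omega) hgv0 (hB b hbB).1)
          exact h3)
        (fun x hx y hy => hpar x (hsub x hx).1 y (hsub y hy).1) (by omega) (by omega) hz'
      have e1 : (false ^^ decide (Odd B''.length)) = false := by
        rw [hlen] at hodd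
        have : ¬ Odd B''.length := by
          intro h
          have h2 := odd_one.add_odd h
          exact (Nat.not_odd_iff_even.2 h2) hodd
        simpa using this
      have e2 : (c : ℤ) - B''.sum = 3 := by omega
      rw [e1, e2] at hrec
      have e3 : u₀ = Rib (xt true) 1 (Finsupp.single (vac n) 1) := by
        rw [hu0, hL, hB₀1]; rfl
      rw [e3] at hrec
      exact NZH_B3 hR1 hLG (by omega) hrec
  · have hrec := NZG_rec hDL hLAD hR1 hR2 hLB hLG t hgv0 hu0ne B.length B rfl hsB false (c : ℤ) (by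
        intro b hb
        refine ⟨?_, NZG_low0 hLG t (h1B b hb) hgv0 (hB b hb).1, NZG_par0 (hB b hb).2⟩
        have h2 := h2B b hb
        by_cases hb2 : b = 2
        · refine Or.inr ⟨hb2, ?_⟩
          have : 0 < B.count 2 := List.count_pos_iff.2 (hb2 ▸ hb)
          omega
        · exact Or.inl (by omega))
      hpar (by omega) (by omega) hz'
    have hparr := NZP_par_rec B false (c : ℤ) (fun x hx => hpar b₁ hb₁ x hx)
      (NZG_par0 (hB b₁ hb₁).2)
    have e1 : (false ^^ decide (Odd B.length)) = true := by simpa using hodd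
    rw [e1] at hrec hparr
    have hdodd : Odd ((c : ℤ) - B.sum) := by
      unfold GRP_par at hparr
      rwa [if_pos rfl, sub_zero] at hparr
    refine NZP hDL hLAD hR1 hR2 hLB hLG hB1 hB2 t true n ((c : ℤ) - B.sum) L B₀ h10 hs0 (by omega)
      ?_ ?_ (fun _ => hdodd) (by omega) ?_ ?_ ?_ ?_ hrec
    · intro b hb
      refine ⟨(hB₀ b hb).1, ?_⟩
      unfold GRP_par
      rw [if_pos rfl, sub_zero]
      exact hdodd
    · exact fun a ha b hb => (hB₀ a ha).2 b hb
    · unfold LeT at hc
      cases t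
      · rw [if_neg (by decide)] at hc ⊢
        omega
      · rw [if_pos rfl] at hc ⊢
        omega
    · rintro ⟨g1, g2, g3, g4⟩
      exact hx1 ⟨g1, g2, g3, by omega⟩
    · rintro ⟨g1, g2, g3, g4⟩
      exact hx2 ⟨g1, g2, g3, by omega⟩
    · rintro ⟨g1, g2, g3, g4, g5⟩
      refine hx3 ⟨g1, g2, g3, by omega, ?_⟩
      rw [← Nat.not_odd_iff_even]
      simpa using g5

/-- strict comparison of the norms if a lowering operator does not vanish -/
theorem NZH_LT (hDL : DL_stmt) (hLB : LB_stmt) (hLG : LG_stmt) (t : Bool) (n c : ℕ) (L l₁ : List ℕ)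
    (h1 : ∀ a ∈ L ++ c :: l₁, 1 ≤ a) (hs : (L ++ c :: l₁).Pairwise (· ≤ ·))
    (hn : (L ++ c :: l₁).sum ≤ n) (hltc : ∀ a ∈ L, a < c)
    (hnz : Low (xt t) c (app (xt t) L (Finsupp.single (vac n) 1)) ≠ 0) :
    nrm (app yt (L ++ c :: l₁) (Finsupp.single (vac n) 1)) <
      nrm (app (xt t) (L ++ c :: l₁) (Finsupp.single (vac n) 1)) := by
  have hle : ∀ l : List ℕ, (∀ a ∈ l, 1 ≤ a) → l.Pairwise (· ≤ ·) → l.sum ≤ n →
      nrm (app yt l (Finsupp.single (vac n) 1)) ≤ nrm (app (xt t) l (Finsupp.single (vac n) 1)) := by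
    intro l h1 hs hn
    obtain ⟨C, _, hC⟩ := LT_grow hDL hLB hLG t n [] (by simp) l.length l rfl h1 hs (by simp)
      (by simpa using hn)
    have e : nrm (app (xt t) [] (Finsupp.single (vac n) (1 : ℤ))) -
        nrm (app yt [] (Finsupp.single (vac n) (1 : ℤ))) = 0 := sub_self _
    rw [e, mul_zero, List.nil_append] at hC
    linarith
  have hmc : c ∈ L ++ c :: l₁ := List.mem_append_right _ List.mem_cons_self
  have hc1 : 1 ≤ c := h1 c hmc
  have h1' : ∀ a ∈ L, 1 ≤ a := fun a ha => h1 a (List.mem_append_left _ ha)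
  have hs' : L.Pairwise (· ≤ ·) := hs.sublist (List.sublist_append_left _ _)
  have hs2 : (c :: l₁).Pairwise (· ≤ ·) := hs.sublist (List.sublist_append_right _ _)
  obtain ⟨j, l', hj, hl', hs''⟩ : ∃ (j : ℕ) (l' : List ℕ), c :: l₁ = List.replicate (j + 1) c ++ l' ∧
      (∀ x ∈ l', c < x) ∧ l'.Pairwise (· ≤ ·) := by
    have key : ∀ l : List ℕ, l.Pairwise (· ≤ ·) → (∀ x ∈ l, c ≤ x) →
        ∃ (j : ℕ) (l' : List ℕ), l = List.replicate j c ++ l' ∧ (∀ x ∈ l', c < x) ∧
          l'.Pairwise (· ≤ ·) := by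
      intro l
      induction l with
      | nil => exact fun _ _ => ⟨0, [], rfl, by simp, List.Pairwise.nil⟩
      | cons a l ih =>
        intro hs hc
        have ha := hc a List.mem_cons_self
        rcases Nat.lt_or_ge c a with h | h
        · refine ⟨0, a :: l, rfl, ?_, hs⟩
          intro x hx
          rcases List.mem_cons.1 hx with hx | hx
          · rw [hx]; exact h
          · exact lt_of_lt_of_le h ((List.pairwise_cons.1 hs).1 x hx)
        · have hac : a = c := le_antisymm h ha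
          obtain ⟨j, l', h2, h3, h4⟩ := ih (List.pairwise_cons.1 hs).2
            (fun x hx => hc x (List.mem_cons_of_mem _ hx))
          refine ⟨j + 1, l', ?_, h3, h4⟩
          rw [hac, h2]
          rfl
    obtain ⟨j, l', h2, h3, h4⟩ := key l₁ (List.pairwise_cons.1 hs2).2 (List.pairwise_cons.1 hs2).1
    exact ⟨j, l', by rw [h2]; rfl, h3, h4⟩
  rw [hj] at hs h1 hn ⊢
  have hsum1 : (L ++ (List.replicate (j + 1) c ++ l')).sum = L.sum + (j + 1) * c + l'.sum := by
    rw [List.sum_append, List.sum_append (l₁ := List.replicate (j + 1) c), List.sum_replicate,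
      smul_eq_mul]
    ring
  rw [hsum1] at hn
  have hb0 := hle L h1' hs' (by omega)
  have hx := (LT_step_x hDL hLG t n c (j + 1) hc1 L h1' (by omega)).2 (by omega) hnz
  have hy := LT_step_y hDL hLB hLG n c (j + 1) hc1 L h1' hltc (by omega)
  have hcp := LT_c_pos (j := j + 1) (a := c) hc1
  have hD : nrm (app yt (L ++ List.replicate (j + 1) c) (Finsupp.single (vac n) 1)) <
      nrm (app (xt t) (L ++ List.replicate (j + 1) c) (Finsupp.single (vac n) 1)) := by
    rw [hy]
    have := mul_le_mul_of_nonneg_left hb0 hcp.le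
    linarith
  have h5 : ∀ x ∈ L ++ List.replicate (j + 1) c, 1 ≤ x ∧ x ≤ c := by
    intro x hx
    rcases List.mem_append.1 hx with h | h
    · exact ⟨h1' x h, (hltc x h).le⟩
    · rw [(List.mem_replicate.1 h).2]
      exact ⟨hc1, le_refl _⟩
  obtain ⟨C, hC0, hC⟩ := LT_grow hDL hLB hLG t n (L ++ List.replicate (j + 1) c)
    (fun x hx => (h5 x hx).1) l'.length l' rfl
    (fun x hx => h1 x (List.mem_append_right _ (List.mem_append_right _ hx))) hs''
    (fun a ha x hx => lt_of_le_of_lt (h5 x hx).2 (hl' a ha)) (by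
      rw [List.append_assoc, hsum1]
      exact hn)
  rw [List.append_assoc L] at hC
  have := mul_pos hC0 (sub_pos.2 hD)
  linarith

theorem NZH_neg (hDL : DL_stmt) (hLAD : LAD_stmt) (hR1 : R1_stmt) (hR2 : R2_stmt) (hLB : LB_stmt)
    (hLG : LG_stmt) (hB1 : B1_stmt) (hB2 : B2_stmt) (t : Bool) (n : ℕ) (l : List ℕ)
    (h1 : ∀ a ∈ l, 1 ≤ a) (hs : l.Pairwise (· ≤ ·)) (hn : l.sum ≤ n) (hneg : NegType t l) :
    nrm (app yt l (Finsupp.single (vac n) 1)) < nrm (app (xt t) l (Finsupp.single (vac n) 1)) := by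
  have hlt : ∀ (L B l₁ : List ℕ) (c : ℕ), (L ++ B ++ c :: l₁).Pairwise (· ≤ ·) → B ≠ [] →
      (∀ b ∈ B, Odd (c + b)) → ∀ a ∈ L ++ B, a < c := by
    intro L B l₁ c hs hBne hodd
    have hltB : ∀ b ∈ B, b < c := by
      intro b hb
      have h2 := (List.pairwise_append.1 hs).2.2 b (List.mem_append_right _ hb) c List.mem_cons_self
      have h3 := hodd b hb
      rcases Nat.lt_or_ge b c with h | h
      · exact h
      · exfalso
        have : b = c := le_antisymm h2 h
        rw [this] at h3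
        exact (Nat.not_odd_iff_even.2 (by rw [← two_mul]; exact even_two_mul c)) h3
    intro a ha
    rcases List.mem_append.1 ha with h | h
    · obtain ⟨b, hb⟩ := List.exists_mem_of_ne_nil B hBne
      have h2 := (List.pairwise_append.1 (List.pairwise_append.1 hs).1).2.2 a h b hb
      exact lt_of_le_of_lt h2 (hltB b hb)
    · exact hltB a h
  rcases hneg with ⟨L, B, l₁, c, rfl, hB, hc, hx1, hx2, hx3⟩ | ⟨L, B₀, B, l₁, c, rfl, hbl⟩
  · have hc1 : 1 ≤ c := h1 c (List.mem_append_right _ List.mem_cons_self)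
    have hBne : B ≠ [] := by
      rintro rfl
      unfold LeT at hc
      simp only [List.sum_nil] at hc
      split_ifs at hc <;> omega
    have hltc := hlt L B l₁ c hs hBne (fun b hb => (hB b hb).2)
    have hsum : (L ++ B ++ c :: l₁).sum = (L ++ B).sum + (c + l₁.sum) := by
      rw [List.sum_append, List.sum_cons]
    refine NZH_LT hDL hLB hLG t n c (L ++ B) l₁ h1 hs hn hltc ?_
    exact NZG hDL hLAD hR1 hR2 hLB hLG hB1 hB2 t n c L B
      (fun a ha => h1 a (List.mem_append_left _ ha)) (hs.sublist (List.sublist_append_left _ _))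
      (by omega) (fun b hb => ⟨(hB b hb).1, (hB b hb).2, hltc b (List.mem_append_right _ hb)⟩) hc
      hx1 hx2 hx3 hc1
  · have hBne : B ≠ [] := by
      rintro rfl
      simp [Block2] at hbl
    have hltc := hlt (L ++ B₀) B l₁ c hs hBne (fun b hb => (hbl.2.1 b hb).2)
    have hsum : (L ++ B₀ ++ B ++ c :: l₁).sum = (L ++ B₀ ++ B).sum + (c + l₁.sum) := by
      rw [List.sum_append, List.sum_cons]
    refine NZH_LT hDL hLB hLG t n c (L ++ B₀ ++ B) l₁ h1 hs hn hltc ?_
    exact NZH hDL hLAD hR1 hR2 hLB hLG hB1 hB2 t n c L B₀ B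
      (fun a ha => h1 a (List.mem_append_left _ ha)) (hs.sublist (List.sublist_append_left _ _))
      (by omega) hbl

end nzh

end Pool.Agent.helper27.PC
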