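import Pool.Agent.helper27.PC3.Fin7
import Pool.Agent.helper27.PC3.NZH

/-!
# PC project, third part: the general negativity theorem
-/

namespace Pool.Agent.helper27.PC

open Module Polynomial

/-- negativity for the types satisfying `NegType` -/
theorem S3N (t : Bool) (n : ℕ) (hn : if t then 1 ≤ n else 2 ≤ n) (H : Type) [Ring H]
    [Algebra A H] (T : Basis (Wty t n) A H) (hT : GHecke (genTy t n) T) (l : List ℕ) (hl : Part n l)
    (hm : NegType t l) (w₀ w : Wty t n) (hw : NegBlocks (w : W n) 0 l) (hw₀ : IsConj w₀ w) :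
    NotPosClass T w₀ := by
  obtain ⟨hev, w', hw', hmin, c, hc, hcP⟩ :=
    val0 LEN2B SIGu NFB2u NFD2u DZ NUu t n hn H T hT l hl w₀ w hw hw₀
  refine ⟨w', hw', hmin, fun hnat => ?_⟩
  have hsum : l.sum ≤ n := hl.2.2.le
  have h1 := NZH_neg DLu LAD R1u R2u LB LG (B1 DLu R1u R2u LA LB LG) B2 t n l hl.1 hl.2.1 hsum hm
  obtain ⟨e1, e2⟩ := EVu t n l 0 hl.1 hsum
  rw [pow_zero, Module.End.one_apply] at e1 e2
  rw [← e1, ← e2] at h1
  obtain ⟨k, hk⟩ := exists_neg_of_lt _ h1
  have := nonneg_of_natPoly hnat hcP k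
  omega

end Pool.Agent.helper27.PC
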