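import Pool.Agent.helper27.PC3.R2

/-!
# PC project, third part: removing a group of equal parts
-/

namespace Pool.Agent.helper27.PC

open Module Finset

section grp

theorem GRP_comm (hLB : LB_stmt) (t : Bool) {n k b : ℕ} {u : St →₀ ℤ} (hb : 1 ≤ b) (hu : GV n k u)
    (hk : k + b ≤ n) :
    Low (xt t) b (Rib (xt t) b u) = Rib (xt t) b (Low (xt t) b u) + ((2 * b : ℕ) : ℤ) • u := by
  have h1 := (hLB ℤ (xt t) (xt t) n k b b u hb hb hu hk).2.1 rfl
  rw [DL_Dg u hu hk (xt t) (LT_xt_sq t)] at h1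
  rw [← h1]
  abel

theorem GRP_comm_pow (hLB : LB_stmt) (hLG : LG_stmt) (t : Bool) {n k b : ℕ} (hb : 1 ≤ b) (j : ℕ)
    {u : St →₀ ℤ} (hu : GV n k u) (hk : k + (j + 1) * b ≤ n) :
    Low (xt t) b (((Rib (xt t) b) ^ (j + 1)) u) = ((Rib (xt t) b) ^ (j + 1)) (Low (xt t) b u) +
      ((j + 1 : ℕ) : ℤ) • ((2 * b : ℕ) : ℤ) • ((Rib (xt t) b) ^ j) u :=
  DL_c1 (Low (xt t) b) (Rib (xt t) b) ((2 * b : ℕ) : ℤ) (fun k u => GV n k u) n b
    (fun k u h => (hLG ℤ (xt t) n k b u hb h).1) (fun k u h h' => GRP_comm hLB t hb h h') j k u hu hk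

theorem GRP_choose {V : Type} [AddCommGroup V] (G : ℕ → V) (j : ℕ) :
    ∑ p ∈ range (j + 1 + 1), (((j + 1).choose p : ℕ) : ℤ) • G p =
      ∑ p ∈ range (j + 1), ((j.choose p : ℕ) : ℤ) • G (p + 1) +
      ∑ p ∈ range (j + 1), ((j.choose p : ℕ) : ℤ) • G p := by
  rw [sum_range_succ']
  have h1 : ∑ p ∈ range (j + 1), (((j + 1).choose (p + 1) : ℕ) : ℤ) • G (p + 1) =
      ∑ p ∈ range (j + 1), ((j.choose p : ℕ) : ℤ) • G (p + 1) +
      ∑ p ∈ range (j + 1), ((j.choose (p + 1) : ℕ) : ℤ) • G (p + 1) := by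
    rw [← sum_add_distrib]
    refine sum_congr rfl fun p _ => ?_
    rw [Nat.choose_succ_succ]
    push_cast
    rw [add_smul]
  rw [h1, add_assoc]
  congr 1
  rw [sum_range_succ (fun p => ((j.choose (p + 1) : ℕ) : ℤ) • G (p + 1)), Nat.choose_succ_self]
  rw [sum_range_succ' (fun p => ((j.choose p : ℕ) : ℤ) • G p)]
  simp

/-- type of the rung `r` -/
def GRP_q (p : Bool) (m r : ℕ) : Bool := (p ^^ decide (Odd m)) ^^ decide (Odd r)

/-- sign of the rung -/
def GRP_s (p : Bool) (m b : ℕ) : ℕ → ℤ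
  | 0 => 1
  | r + 1 => if GRP_q p m r then (-1) ^ b * GRP_s p m b r else GRP_s p m b r

theorem GRP_s_sq (p : Bool) (m b : ℕ) : ∀ r, GRP_s p m b r * GRP_s p m b r = 1 := by
  intro r
  induction r with
  | zero => rfl
  | succ r ih =>
    unfold GRP_s
    split_ifs
    · have hpp : (-1 : ℤ) ^ b * (-1) ^ b = 1 := by rw [← mul_pow]; simp
      calc _ = ((-1 : ℤ) ^ b * (-1) ^ b) * (GRP_s p m b r * GRP_s p m b r) := by ring
        _ = 1 := by rw [hpp, ih, one_mul]
    · exact ih

theorem GRP_q_succ (p : Bool) (m r : ℕ) : GRP_q p m (r + 1) = !GRP_q p m r := by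
  unfold GRP_q
  have : decide (Odd (r + 1)) = !decide (Odd r) := by
    rw [← decide_not, decide_eq_decide, Nat.odd_add_one]
  rw [this]
  cases p <;> cases decide (Odd m) <;> cases decide (Odd r) <;> rfl

theorem GRP_q_self (p : Bool) (m : ℕ) : GRP_q p m m = p := by
  unfold GRP_q
  cases p <;> cases decide (Odd m) <;> rfl

/-- index of the rung -/
def GRP_i (d : ℤ) (m b r : ℕ) : ℤ := d - m * b + r * b

/-- the operators of the ladder -/
noncomputable def GRP_F (t p : Bool) (d : ℤ) (m b r : ℕ) : (St →₀ ℤ) →ₗ[ℤ] (St →₀ ℤ) :=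
  GRP_s p m b r • YO t (GRP_q p m r) (GRP_i d m b r)

/-- parity condition -/
def GRP_par (p : Bool) (d : ℤ) (b : ℕ) : Prop := Odd (d - if p then 0 else (b : ℤ))

theorem GRP_par_succ (p : Bool) (d : ℤ) (m b r : ℕ) :
    GRP_par (GRP_q p m (r + 1)) (GRP_i d m b (r + 1)) b ↔ GRP_par (GRP_q p m r) (GRP_i d m b r) b := by
  rw [GRP_q_succ]
  unfold GRP_par
  have hi : GRP_i d m b (r + 1) = GRP_i d m b r + b := by
    unfold GRP_i
    push_cast
    ring
  rw [hi]
  cases GRP_q p m r
  · simp only [Bool.not_false, if_true, if_false, sub_zero, Bool.false_eq_true]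
    rw [show GRP_i d m b r + (b : ℤ) = (GRP_i d m b r - b) + 2 * b by ring]
    constructor
    · intro h
      have := h.sub_even (even_two_mul (b : ℤ))
      rwa [add_sub_cancel_right] at this
    · intro h
      exact h.add_even (even_two_mul (b : ℤ))
  · simp

theorem GRP_par_all {p : Bool} {d : ℤ} {m b : ℕ} (h : GRP_par p d b) (r : ℕ) :
    GRP_par (GRP_q p m r) (GRP_i d m b r) b := by
  have h0 : ∀ r, GRP_par (GRP_q p m r) (GRP_i d m b r) b ↔
      GRP_par (GRP_q p m 0) (GRP_i d m b 0) b := by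
    intro r
    induction r with
    | zero => rfl
    | succ r ih => rw [GRP_par_succ, ih]
  have h1 : GRP_par (GRP_q p m m) (GRP_i d m b m) b := by
    rw [GRP_q_self]
    have : GRP_i d m b m = d := by unfold GRP_i; ring
    rw [this]
    exact h
  exact (h0 r).2 ((h0 m).1 h1)

theorem GRP_F_comm (hR1 : R1_stmt) (t p : Bool) {d : ℤ} {m b : ℕ} (hb : 1 ≤ b) (hpar : GRP_par p d b)
    (r : ℕ) {n k : ℕ} {v : St →₀ ℤ} (hv : GV n k v) (hk : k + b ≤ n) :
    GRP_F t p d m b (r + 1) (Rib (xt t) b v) =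
      Rib (xt t) b (GRP_F t p d m b (r + 1) v) + (2 : ℤ) • GRP_F t p d m b r v := by
  have hpr := GRP_par_all (m := m) hpar (r + 1)
  have hi : GRP_i d m b (r + 1) - b = GRP_i d m b r := by
    unfold GRP_i
    push_cast
    ring
  have h1 := hR1 t n k b (GRP_i d m b (r + 1)) v hb hv hk
  rw [hi] at h1
  unfold GRP_F
  rw [LinearMap.smul_apply, LinearMap.smul_apply, LinearMap.smul_apply, map_smul]
  have hs : GRP_s p m b (r + 1) =
    if GRP_q p m r then (-1) ^ b * GRP_s p m b r else GRP_s p m b r := rfl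
  have hq := GRP_q_succ p m r
  unfold GRP_par at hpr
  cases hqr : GRP_q p m r
  · rw [hqr] at hs hq
    rw [hq] at hpr ⊢
    simp only [Bool.not_false, if_true, sub_zero] at hpr
    have h2 := h1.2 hpr
    rw [hs]
    simp only [Bool.false_eq_true, if_false]
    unfold YO
    simp only [Bool.not_false, if_true, Bool.false_eq_true, if_false]
    rw [sub_eq_iff_eq_add] at h2
    rw [h2, smul_add, smul_smul, smul_smul]
    rw [add_comm, mul_comm (2 : ℤ)]
  · rw [hqr] at hs hq
    rw [hq] at hpr ⊢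
    simp only [Bool.not_true, Bool.false_eq_true, if_false] at hpr
    rw [hi] at hpr
    have h2 := h1.1 hpr
    rw [hs]
    unfold YO
    simp only [Bool.not_true, if_true, Bool.false_eq_true, if_false]
    rw [sub_eq_iff_eq_add] at h2
    rw [h2, smul_add, smul_smul, smul_smul]
    rw [add_comm]
    congr 2
    have hpp : (-1 : ℤ) ^ b * (-1) ^ b = 1 := by rw [← mul_pow]; simp
    linear_combination (2 * GRP_s p m b r) * hpp

theorem GRP_F_low (hR2 : R2_stmt) (t p : Bool) {d : ℤ} {m b : ℕ} (hb : 1 ≤ b) (hpar : GRP_par p d b)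
    (r : ℕ) {n k : ℕ} {w : St →₀ ℤ} (hw : GV n k w) (hk : k ≤ n) (hkd : (k : ℤ) - GRP_i d m b r ≤ n)
    (h0 : Low (xt t) b w = 0) :
    Low (xt t) b (GRP_F t p d m b r w) = (-2 : ℤ) • GRP_F t p d m b (r + 1) w := by
  have hpr := GRP_par_all (m := m) hpar r
  have hi : GRP_i d m b r + b = GRP_i d m b (r + 1) := by
    unfold GRP_i
    push_cast
    ring
  have h1 := hR2 t n k b (GRP_i d m b r) w hb hw hk hkd
  rw [hi, h0, map_zero, map_zero, sub_zero, sub_zero] at h1
  unfold GRP_F
  rw [LinearMap.smul_apply, LinearMap.smul_apply, map_smul]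
  have hs : GRP_s p m b (r + 1) =
    if GRP_q p m r then (-1) ^ b * GRP_s p m b r else GRP_s p m b r := rfl
  have hq := GRP_q_succ p m r
  unfold GRP_par at hpr
  cases hqr : GRP_q p m r
  · rw [hqr] at hs hq hpr
    rw [hq]
    simp only [Bool.false_eq_true, if_false] at hpr
    have h2 := h1.1 (by
      rw [← hi, show GRP_i d m b r + (b : ℤ) = (GRP_i d m b r - b) + 2 * b by ring]
      exact hpr.add_even (even_two_mul (b : ℤ)))
    rw [hs]
    unfold YO
    simp only [Bool.not_false, if_true, Bool.false_eq_true, if_false]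
    rw [h2, smul_smul, smul_smul, mul_comm]
  · rw [hqr] at hs hq hpr
    rw [hq]
    simp only [if_true, sub_zero] at hpr
    have h2 := h1.2 hpr
    rw [hs]
    unfold YO
    simp only [Bool.not_true, if_true, Bool.false_eq_true, if_false]
    rw [h2, smul_smul, smul_smul]
    congr 1
    ring

theorem GRP_expand (hR1 : R1_stmt) (hLG : LG_stmt) (t p : Bool) {d : ℤ} {m b : ℕ} (hb : 1 ≤ b)
    (hpar : GRP_par p d b) {n k : ℕ} {w : St →₀ ℤ} (hw : GV n k w) :
    ∀ j : ℕ, k + j * b ≤ n → ∀ s : ℕ,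
    GRP_F t p d m b (j + s) (((Rib (xt t) b) ^ j) w) =
      ∑ i ∈ range (j + 1), ((j.choose i : ℕ) : ℤ) •
        (((2 : ℤ) ^ (j - i)) • ((Rib (xt t) b) ^ i) (GRP_F t p d m b (i + s) w)) := by
  intro j
  induction j with
  | zero =>
    intro _ s
    simp
  | succ j ih =>
    intro hj s
    have hj' : k + j * b ≤ n := by
      have : (j + 1) * b = j * b + b := by ring
      omega
    have hgv : GV n (k + j * b) (((Rib (xt t) b) ^ j) w) := by
      have : ∀ j : ℕ, GV n (k + j * b) (((Rib (xt t) b) ^ j) w) := by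
        intro j
        induction j with
        | zero => simpa using hw
        | succ j ih2 =>
          rw [pow_succ', Module.End.mul_apply, show k + (j + 1) * b = (k + j * b) + b by ring]
          exact (hLG ℤ (xt t) n _ b _ hb ih2).1
      exact this j
    have h1 := GRP_F_comm hR1 t p (m := m) hb hpar (j + s) hgv (by
      have : (j + 1) * b = j * b + b := by ring
      omega)
    rw [pow_succ', Module.End.mul_apply, show j + 1 + s = j + s + 1 by ring, h1,
      show j + s + 1 = j + (s + 1) by ring, ih hj' (s + 1), ih hj' s,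
      GRP_choose (fun i => ((2 : ℤ) ^ (j + 1 - i)) •
        ((Rib (xt t) b) ^ i) (GRP_F t p d m b (i + s) w)), map_sum, smul_sum]
    congr 1
    · refine sum_congr rfl fun i hi => ?_
      rw [map_smul, map_smul, show j + 1 - (i + 1) = j - i by omega,
        show i + (s + 1) = i + 1 + s by ring, pow_succ' (Rib (xt t) b) i, Module.End.mul_apply]
    · refine sum_congr rfl fun i hi => ?_
      rw [mem_range] at hi
      rw [smul_comm, smul_smul (2 : ℤ), ← pow_succ', show j - i + 1 = j + 1 - i by omega]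

theorem GRP (hLAD : LAD_stmt) (hR1 : R1_stmt) (hR2 : R2_stmt) (hLB : LB_stmt) (hLG : LG_stmt)
    (t p : Bool) {n k b m : ℕ} {d : ℤ} {w : St →₀ ℤ} (hb : 3 ≤ b ∨ (b = 2 ∧ 2 ≤ m)) (hd : 0 ≤ d)
    (hw : GV n k w) (hk : k + m * b ≤ n) (h0 : Low (xt t) b w = 0) (hpar : GRP_par p d b)
    (hz : YO t p d (((Rib (xt t) b) ^ m) w) = 0) :
    YO t (p ^^ decide (Odd m)) (d - m * b) w = 0 := by
  have hb1 : 1 ≤ b := by omega
  have hdeg : ∀ r, ∀ q : Bool, (q = true → GRP_i d m b r ≠ 0) →
      (∀ K : ℕ, (K : ℤ) = k - GRP_i d m b r → GV n K (YO t q (GRP_i d m b r) w)) ∧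
      ((k : ℤ) < GRP_i d m b r → YO t q (GRP_i d m b r) w = 0) :=
    fun r q hq => R2_deg hLG t q hw hq
  have hq0 : ∀ r, GRP_q p m r = true → GRP_i d m b r ≠ 0 := by
    intro r hr h
    have := GRP_par_all (m := m) hpar r
    unfold GRP_par at this
    rw [hr, h] at this
    simp at this
  have hind : ∀ r : ℕ, (k : ℤ) - GRP_i d m b r ≤ n - r * b := by
    intro r
    unfold GRP_i
    have : ((k + m * b : ℕ) : ℤ) ≤ n := by exact_mod_cast hk
    push_cast at this
    linarith
  have key : GRP_F t p d m b 0 w = 0 := by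
    refine hLAD (St →₀ ℤ) b m hb ?_ (Low (xt t) b) (Rib (xt t) b) (fun r => GRP_F t p d m b r w) ?_ ?_
      ?_ ?_
    · intro c v hc hv
      rcases smul_eq_zero.1 hv with h | h
      · exact absurd h hc
      · exact h
    · intro r
      refine GRP_F_low hR2 t p hb1 hpar r hw (by omega) ?_ h0
      have := hind r
      have h2 : (0 : ℤ) ≤ r * b := by positivity
      linarith
    · intro j r hjr
      show Low (xt t) b (((Rib (xt t) b) ^ (j + 1)) (GRP_F t p d m b r w)) = _
      by_cases hneg : (k : ℤ) < GRP_i d m b r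
      · have h3 : GRP_F t p d m b r w = 0 := by
          unfold GRP_F
          rw [LinearMap.smul_apply, (hdeg r _ (hq0 r)).2 hneg, smul_zero]
        show _ = ((Rib (xt t) b) ^ (j + 1)) (Low (xt t) b (GRP_F t p d m b r w)) +
          (2 * b * (j + 1) : ℤ) • ((Rib (xt t) b) ^ j) (GRP_F t p d m b r w)
        rw [h3]
        simp
      · obtain ⟨K, hK⟩ : ∃ K : ℕ, (K : ℤ) = k - GRP_i d m b r :=
          ⟨((k : ℤ) - GRP_i d m b r).toNat, by omega⟩
        have hgv : GV n K (GRP_F t p d m b r w) := by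
          unfold GRP_F
          rw [LinearMap.smul_apply]
          exact R2_GV_smul _ ((hdeg r _ (hq0 r)).1 K hK)
        have h4 := GRP_comm_pow hLB hLG t hb1 j hgv (by
          have h5 := hind r
          have h6 : (j + 1) * b ≤ r * b := Nat.mul_le_mul_right b hjr
          have h7 : (((j + 1) * b : ℕ) : ℤ) ≤ ((r * b : ℕ) : ℤ) := by exact_mod_cast h6
          push_cast at h7
          have h8 : ((K + (j + 1) * b : ℕ) : ℤ) ≤ n := by
            push_cast
            linarith
          exact_mod_cast h8)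
        rw [h4]
        congr 1
        rw [smul_smul]
        congr 1
        push_cast
        ring
    · refine ⟨k + m + 1, ?_⟩
      show GRP_F t p d m b (k + m + 1) w = 0
      unfold GRP_F
      rw [LinearMap.smul_apply, (hdeg (k + m + 1) _ (hq0 _)).2, smul_zero]
      unfold GRP_i
      push_cast
      have h1 : (1 : ℤ) ≤ b := by exact_mod_cast hb1
      nlinarith [h1, hd, Int.natCast_nonneg k]
    · have h1 := GRP_expand hR1 hLG t p (m := m) hb1 hpar hw m hk 0
      have h2 : GRP_F t p d m b (m + 0) (((Rib (xt t) b) ^ m) w) = 0 := by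
        unfold GRP_F
        rw [add_zero, GRP_q_self, LinearMap.smul_apply]
        have : GRP_i d m b m = d := by unfold GRP_i; ring
        rw [this, hz, smul_zero]
      rw [h2] at h1
      rw [h1]
      refine sum_congr rfl fun i _ => ?_
      rw [smul_smul, add_zero]
  unfold GRP_F GRP_s at key
  rw [LinearMap.smul_apply, one_smul] at key
  have e1 : GRP_q p m 0 = (p ^^ decide (Odd m)) := by
    unfold GRP_q
    simp
  have e2 : GRP_i d m b 0 = d - m * b := by
    unfold GRP_i
    simp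
  rw [e1, e2] at key
  exact key

end grp

end Pool.Agent.helper27.PC
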