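import Pool.Agent.helper27.PC3.GRP

/-!
# PC project, third part: nonvanishing
-/

namespace Pool.Agent.helper27.PC

open Module Finset

section nzg

/-- creation operators are injective -/
theorem NZG_inj (hDL : DL_stmt) {w : Lab → ℤ} (hw : ∀ l, w l * w l = 1) {n k a : ℕ} (ha : 1 ≤ a)
    {u : St →₀ ℤ} (hu : GV n k u) (hk : k + a ≤ n) (h : Rib w a u = 0) : u = 0 := by
  by_contra hne
  have h1 := hDL ℤ w hw n k a 1 u ha hu (by omega)
  rw [pow_one, h, sum_range_succ, sum_range_succ, sum_range_zero] at h1
  simp only [Nat.choose_self, Nat.choose_zero_right, pow_zero, Module.End.one_apply, pow_one] at h1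
  have h2 := LT_nrm_pos hne
  have h3 := LT_nrm_nonneg (Low w a u)
  rw [LT_nrm_zero] at h1
  simp at h1
  have h4 : (0 : ℤ) < a := by exact_mod_cast ha
  nlinarith

theorem NZG_YO_inj (hDL : DL_stmt) (t p : Bool) {n k : ℕ} {d : ℤ} (hd : d < 0) {u : St →₀ ℤ}
    (hu : GV n k u) (hk : (k : ℤ) - d ≤ n) (h : YO t p d u = 0) : u = 0 := by
  unfold YO at h
  cases p
  · rw [if_neg (by decide)] at h
    unfold EO at h
    rw [if_pos hd] at h
    exact NZG_inj hDL (LT_xt_sq t) (by omega) hu (by omega) h
  · rw [if_pos rfl] at h
    unfold PO at h
    rw [if_pos hd] at h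
    exact NZG_inj hDL (fun _ => one_mul 1) (by omega) hu (by omega) h

theorem NZG_app_ne (hDL : DL_stmt) (hLG : LG_stmt) (t : Bool) {n : ℕ} : ∀ (B : List ℕ) (k : ℕ)
    (w : St →₀ ℤ), (∀ b ∈ B, 1 ≤ b) → GV n k w → k + B.sum ≤ n → app (xt t) B w = 0 → w = 0 := by
  intro B
  induction B with
  | nil => intro k w _ _ _ h; exact h
  | cons b B ih =>
    intro k w hb hw hk h
    rw [List.sum_cons] at hk
    have hb1 := hb b List.mem_cons_self
    have h1 := (hLG ℤ (xt t) n k b w hb1 hw).1
    have h2 := ih (k + b) _ (fun x hx => hb x (List.mem_cons_of_mem _ hx)) h1 (by omega) h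
    exact NZG_inj hDL (LT_xt_sq t) hb1 hw (by omega) h2

theorem NZG_kill (hLB : LB_stmt) (hLG : LG_stmt) (t : Bool) {n a : ℕ} : ∀ (R : List ℕ) (k : ℕ)
    (w : St →₀ ℤ), (∀ b ∈ R, 1 ≤ b ∧ b < a ∧ Even (a + b)) → GV n k w → k + R.sum ≤ n →
    Low (xt t) a w = 0 → Low (xt t) a (app (xt t) R w) = 0 := by
  intro R
  induction R with
  | nil => intro k w _ _ _ h; exact h
  | cons b R ih =>
    intro k w hb hw hk h
    rw [List.sum_cons] at hk
    obtain ⟨h1, h2, h3⟩ := hb b List.mem_cons_self
    have h4 := (hLB ℤ (xt t) (xt t) n k a b w (by omega) h1 hw (by omega)).2.2 h2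
    have h5 : (fun l => xt t l * xt t (up (a - b) l) - xt t (dn b l) * xt t (dn b l)) =
        fun _ => (0 : ℤ) := by
      funext l
      have h6 : xt t (up (a - b) l) = xt t l := by
        unfold xt up
        simp only
        rw [pow_add]
        have h7 : Even (a - b) := by
          rw [Nat.even_sub h2.le]
          rw [Nat.even_add] at h3
          exact h3
        rw [h7.neg_one_pow, mul_one]
      rw [h6, LT_xt_sq, LT_xt_sq, sub_self]
    rw [h5, LT_low_zero, h, map_zero, sub_zero] at h4
    exact ih (k + b) _ (fun x hx => hb x (List.mem_cons_of_mem _ hx))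
      (hLG ℤ (xt t) n k b w h1 hw).1 (by omega) h4

theorem NZG_par_congr {p : Bool} {d : ℤ} {a b : ℕ} (h : Even (a + b)) (h1 : GRP_par p d a) :
    GRP_par p d b := by
  unfold GRP_par at h1 ⊢
  cases p
  · simp only [Bool.false_eq_true, if_false] at h1 ⊢
    have h2 : Even ((a : ℤ) - b) := by
      have : Even ((a : ℤ) + b) := by exact_mod_cast h
      rw [Int.even_sub]
      rw [Int.even_add] at this
      exact this
    rw [show d - (b : ℤ) = (d - a) + (a - b) by ring]
    exact h1.add_even h2
  · exact h1

theorem NZG_rec (hDL : DL_stmt) (hLAD : LAD_stmt) (hR1 : R1_stmt) (hR2 : R2_stmt) (hLB : LB_stmt)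
    (hLG : LG_stmt) (t : Bool) {n k : ℕ} {w : St →₀ ℤ} (hw : GV n k w) (hw0 : w ≠ 0) :
    ∀ (N : ℕ) (B : List ℕ), B.length = N → B.Pairwise (· ≤ ·) → ∀ (p : Bool) (d : ℤ),
    (∀ b ∈ B, (3 ≤ b ∨ (b = 2 ∧ 2 ≤ B.count 2)) ∧ Low (xt t) b w = 0 ∧ GRP_par p d b) →
    (∀ a ∈ B, ∀ b ∈ B, Even (a + b)) →
    k + B.sum ≤ n → ((k + B.sum : ℕ) : ℤ) - d ≤ n → YO t p d (app (xt t) B w) = 0 →
    YO t (p ^^ decide (Odd B.length)) (d - B.sum) w = 0 := by
  intro N
  induction N using Nat.strong_induction_on with
  | _ N ih =>
    intro B hN hs p d hB hpar hk hkd hz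
    rcases Nat.eq_zero_or_pos N with h0 | h0
    · rw [h0] at hN
      rw [List.length_eq_zero_iff.1 hN] at hz ⊢
      have hnil : app (xt t) [] w = w := rfl
      rw [hnil] at hz
      simpa using hz
    · have hne : B.toFinset.Nonempty := by
        rw [List.toFinset_nonempty_iff]
        intro h
        rw [h] at hN
        simp at hN
        omega
      obtain ⟨a, hal, hmax⟩ := Finset.exists_max_image B.toFinset id hne
      rw [List.mem_toFinset] at hal
      have hmax' : ∀ x ∈ B, x ≤ a := fun x hx => hmax x (List.mem_toFinset.2 hx)
      have h2 := SD_split B hs a hmax'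
      set R := B.filter (· < a) with hR
      set j := B.count a with hj
      have hj0 : 0 < j := List.count_pos_iff.2 hal
      have hRl : R.length < N := by
        rw [← hN]
        conv_rhs => rw [h2]
        rw [List.length_append, List.length_replicate]
        omega
      have hlen : B.length = R.length + j := by
        conv_lhs => rw [h2]
        rw [List.length_append, List.length_replicate]
      have hsub : ∀ x ∈ R, x ∈ B ∧ x < a := by
        intro x hx
        rw [hR, List.mem_filter] at hx
        exact ⟨hx.1, by simpa using hx.2⟩
      have hsum : B.sum = R.sum + j * a := by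
        conv_lhs => rw [h2]
        rw [List.sum_append, List.sum_replicate, smul_eq_mul]
      have hB1 : ∀ b ∈ B, 1 ≤ b := by
        intro b hb
        rcases (hB b hb).1 with h | h <;> omega
      have happ : app (xt t) B w = ((Rib (xt t) a) ^ j) (app (xt t) R w) := by
        conv_lhs => rw [h2]
        rw [LT_app_append, LT_app_replicate]
      by_cases hd : d < 0
      · exfalso
        have h3 := LT_gv hLG (xt t) n B k w hB1 hw
        have h4 := NZG_YO_inj hDL t p hd h3 hkd hz
        exact hw0 (NZG_app_ne hDL hLG t B k w hB1 hw hk h4)
      · have hR1' : ∀ b ∈ R, 1 ≤ b := fun b hb => hB1 b (hsub b hb).1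
        have hgv := LT_gv hLG (xt t) n R k w hR1' hw
        have hlow : Low (xt t) a (app (xt t) R w) = 0 := by
          refine NZG_kill hLB hLG t R k w ?_ hw (by omega) (hB a hal).2.1
          intro b hb
          exact ⟨hR1' b hb, (hsub b hb).2, hpar a hal b (hsub b hb).1⟩
        have hcond : 3 ≤ a ∨ (a = 2 ∧ 2 ≤ j) := by
          rcases (hB a hal).1 with h | h
          · exact Or.inl h
          · refine Or.inr ⟨h.1, ?_⟩
            rw [hj, h.1]
            exact h.2
        rw [happ] at hz
        have hg := GRP hLAD hR1 hR2 hLB hLG t p (m := j) hcond (not_lt.1 hd) hgv (by omega) hlow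
          (hB a hal).2.2 hz
        have hpar0 : GRP_par (p ^^ decide (Odd j)) (d - j * a) a := by
          have h5 := GRP_par_all (m := j) (hB a hal).2.2 0
          have e1 : GRP_q p j 0 = (p ^^ decide (Odd j)) := by
            unfold GRP_q
            simp
          have e2 : GRP_i d j a 0 = d - j * a := by
            unfold GRP_i
            simp
          rwa [e1, e2] at h5
        have hih := ih R.length hRl R rfl (hs.sublist List.filter_sublist) (p ^^ decide (Odd j))
          (d - j * a) (by
            intro b hb
            obtain ⟨hb1, hb2⟩ := hsub b hb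
            refine ⟨?_, (hB b hb1).2.1, NZG_par_congr (hpar a hal b hb1) hpar0⟩
            rcases (hB b hb1).1 with h | h
            · exact Or.inl h
            · refine Or.inr ⟨h.1, ?_⟩
              have h6 : B.count 2 = R.count 2 := by
                conv_lhs => rw [h2]
                rw [List.count_append, List.count_replicate, if_neg, add_zero]
                simp only [beq_iff_eq]
                omega
              rw [← h6]
              exact h.2)
          (fun x hx y hy => hpar x (hsub x hx).1 y (hsub y hy).1) (by omega) (by
            rw [hsum] at hkd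
            push_cast at hkd ⊢
            linarith) hg
        rw [hlen, hsum]
        have e3 : ((p ^^ decide (Odd j)) ^^ decide (Odd R.length)) =
            (p ^^ decide (Odd (R.length + j))) := by
          have : decide (Odd (R.length + j)) = (decide (Odd R.length) ^^ decide (Odd j)) := by
            rcases Nat.even_or_odd R.length with h7 | h7 <;>
              rcases Nat.even_or_odd j with h8 | h8
            · have h9 := h7.add h8
              simp [Nat.not_odd_iff_even.2 h7, Nat.not_odd_iff_even.2 h8, Nat.not_odd_iff_even.2 h9]
            · have h9 := h7.add_odd h8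
              simp [Nat.not_odd_iff_even.2 h7, h8, h9]
            · have h9 := h7.add_even h8
              simp [Nat.not_odd_iff_even.2 h8, h7, h9]
            · have h9 := h7.add_odd h8
              simp [Nat.not_odd_iff_even.2 h9, h7, h8]
          rw [this]
          cases p <;> cases decide (Odd j) <;> cases decide (Odd R.length) <;> rfl
        rw [e3] at hih
        have e4 : d - j * a - (R.sum : ℤ) = d - ((R.sum + j * a : ℕ) : ℤ) := by
          push_cast
          ring
        rw [e4] at hih
        exact hih

theorem NZG_filter (k : ℕ) : ∀ B : List ℕ, B.Pairwise (· ≤ ·) →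
    B.filter (fun x => decide (x ≤ k)) ++ B.filter (fun x => decide (k < x)) = B := by
  intro B
  induction B with
  | nil => intro _; rfl
  | cons b B ih =>
    intro hs
    rw [List.pairwise_cons] at hs
    by_cases hb : b ≤ k
    · rw [List.filter_cons_of_pos (by simpa using hb), List.filter_cons_of_neg (by simpa using hb),
        List.cons_append, ih hs.2]
    · have h1 : B.filter (fun x => decide (x ≤ k)) = [] := by
        rw [List.filter_eq_nil_iff]
        intro x hx
        have := hs.1 x hx
        simp
        omega
      have h2 : B.filter (fun x => decide (k < x)) = B := by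
        rw [List.filter_eq_self]
        intro x hx
        have := hs.1 x hx
        simp
        omega
      rw [List.filter_cons_of_neg (by simpa using hb), List.filter_cons_of_pos (by simpa using hb),
        h1, h2, List.nil_append]

/-- sorted lists whose elements are at least `k`: the copies of `k` come first -/
theorem NZG_split {k : ℕ} {B : List ℕ} (hs : B.Pairwise (· ≤ ·)) (hk : ∀ b ∈ B, k ≤ b) :
    B = List.replicate (B.count k) k ++ B.filter (fun x => decide (k < x)) := by
  have h1 := NZG_filter k B hs
  have h2 : B.filter (fun x => decide (x ≤ k)) = List.replicate (B.count k) k := by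
    rw [List.eq_replicate_iff]
    constructor
    · rw [List.count_eq_length_filter]
      congr 1
      apply List.filter_congr
      intro x hx
      have := hk x hx
      by_cases h : x = k
      · subst h; simp
      · have h5 : ¬ x ≤ k := by omega
        simp [h, h5]
    · intro b hb
      rw [List.mem_filter] at hb
      have h3 := hk b hb.1
      have h4 : b ≤ k := by simpa using hb.2
      omega
  rw [h2] at h1
  exact h1.symm

theorem NZG_E0 {n k : ℕ} {u : St →₀ ℤ} (hu : GV n k u) (h : YO true false 0 u = 0) : u = 0 := by
  ext S
  by_cases hS : S ∈ u.support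
  · exfalso
    have h1 : (YO true false 0 u) S = 0 := by rw [h]; rfl
    unfold YO EO at h1
    rw [if_neg (by decide), if_neg (lt_irrefl _), if_pos rfl, LinearMap.sub_apply,
      LinearMap.smul_apply, LinearMap.id_apply, Finsupp.sub_apply, R2_Dg_apply, if_pos rfl,
      one_smul] at h1
    have h2 : (∑ l ∈ S, xt true l - 1) * u S = 0 := by linear_combination h1
    rcases mul_eq_zero.1 h2 with h3 | h3
    · have hcard : S.card = 2 * n := by
        have hg := hu S hS
        have h4 : S.card = (SD_pos true S).card + (SD_pos false S).card := by
          unfold SD_pos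
          rw [Finset.card_image_of_injOn, Finset.card_image_of_injOn]
          · rw [← Finset.card_filter_add_card_filter_not (s := S) (fun l => l.1 = true)]
            congr 2
            apply Finset.filter_congr
            intro l _
            simp
          · intro x hx y hy hxy
            simp only [Finset.coe_filter, Set.mem_ofPred_eq] at hx hy
            exact Prod.ext (hx.2.trans hy.2.symm) hxy
          · intro x hx y hy hxy
            simp only [Finset.coe_filter, Set.mem_ofPred_eq] at hx hy
            exact Prod.ext (hx.2.trans hy.2.symm) hxy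
        rw [h4, hg.1, hg.1]
        ring
      have h5 : ∀ T : Finset Lab, Even (∑ l ∈ T, xt true l - (T.card : ℤ)) := by
        intro T
        induction T using Finset.induction_on with
        | empty => simp
        | insert a s ha ih =>
          rw [Finset.sum_insert ha, Finset.card_insert_of_notMem ha]
          have h6 : Even (xt true a - 1) := by
            unfold xt
            simp only [Bool.true_or, if_true, one_mul]
            rcases Nat.even_or_odd a.2 with h7 | h7
            · rw [h7.neg_one_pow]; simp
            · rw [h7.neg_one_pow]; decide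
          push_cast
          have h8 := h6.add ih
          have h9 : xt true a - 1 + (∑ l ∈ s, xt true l - (s.card : ℤ)) =
              xt true a + ∑ l ∈ s, xt true l - ((s.card : ℤ) + 1) := by ring
          rwa [h9] at h8
      have h6 := h5 S
      rw [hcard] at h6
      have h7 : ∑ l ∈ S, xt true l = 1 := by linarith
      rw [h7] at h6
      push_cast at h6
      rw [Int.even_sub] at h6
      have h8 := h6.2 (even_two_mul _)
      exact absurd h8 (by decide)
    · exact (Finsupp.mem_support_iff.1 hS) h3
  · exact Finsupp.notMem_support_iff.1 hS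

end nzg

end Pool.Agent.helper27.PC
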