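import Pool.Agent.helper27.PC3.NZG2
import Pool.Agent.helper27.PC3.LTG

/-!
# PC project, third part: nonvanishing, general form
-/

namespace Pool.Agent.helper27.PC

open Module Finset

section nzg2

theorem NZP_par_rec {e : ℕ} : ∀ (B : List ℕ) (p : Bool) (d : ℤ), (∀ b ∈ B, Even (e + b)) →
    GRP_par p d e → GRP_par (p ^^ decide (Odd B.length)) (d - B.sum) e := by
  intro B
  induction B with
  | nil => intro p d _ h; simpa using h
  | cons b B ih =>
    intro p d hB h
    have h1 := ih p d (fun x hx => hB x (List.mem_cons_of_mem _ hx)) h
    have h2 := hB b List.mem_cons_self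
    have h3 : Even ((e : ℤ) + b) := by exact_mod_cast h2
    have e1 : (p ^^ decide (Odd (b :: B).length)) = !(p ^^ decide (Odd B.length)) := by
      rw [List.length_cons]
      have : decide (Odd (B.length + 1)) = !decide (Odd B.length) := by
        rw [← decide_not, decide_eq_decide, Nat.odd_add_one]
      rw [this]
      cases p <;> cases decide (Odd B.length) <;> rfl
    have e2 : d - ((b :: B).sum : ℕ) = (d - (B.sum : ℕ)) - b := by
      rw [List.sum_cons]
      push_cast
      ring
    rw [e1, e2]
    revert h1
    generalize (p ^^ decide (Odd B.length)) = p'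
    generalize d - ((B.sum : ℕ) : ℤ) = d'
    intro h1
    unfold GRP_par at h1 ⊢
    cases p'
    · simp only [Bool.false_eq_true, if_false, Bool.not_false, if_true, sub_zero] at h1 ⊢
      have h4 : d' - b = (d' - e) + ((e + b) - 2 * b) := by ring
      rw [h4]
      exact h1.add_even (h3.sub (even_two_mul _))
    · simp only [if_true, sub_zero, Bool.not_true, Bool.false_eq_true, if_false] at h1 ⊢
      have h4 : d' - b - e = d' - (e + b) := by ring
      rw [h4]
      exact h1.sub_even h3

theorem NZP (hDL : DL_stmt) (hLAD : LAD_stmt) (hR1 : R1_stmt) (hR2 : R2_stmt) (hLB : LB_stmt)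
    (hLG : LG_stmt) (hB1 : B1_stmt) (hB2 : B2_stmt) (t p : Bool) (n : ℕ) (d : ℤ) (l₀ B : List ℕ)
    (h1 : ∀ a ∈ l₀ ++ B, 1 ≤ a) (hs : (l₀ ++ B).Pairwise (· ≤ ·)) (hn : (l₀ ++ B).sum ≤ n)
    (hB : ∀ b ∈ B, l₀.sum < b ∧ GRP_par p d b) (hpar : ∀ a ∈ B, ∀ b ∈ B, Even (a + b))
    (hp : p = true → Odd d) (hd0 : 0 ≤ d) (hc : if t then d ≤ B.sum else d < B.sum)
    (hx1 : ¬ (t = true ∧ l₀ = [] ∧ B.count 1 = 2 ∧ (B.sum : ℤ) = d + 1))
    (hx2 : ¬ (t = false ∧ l₀ = [] ∧ B.count 1 = 2 ∧ (B.sum : ℤ) = d + 2))
    (hx3 : ¬ (t = false ∧ l₀ = [1] ∧ B.count 2 = 1 ∧ (B.sum : ℤ) = d + 1 ∧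
      (p ^^ decide (Odd B.length)) = true)) :
    YO t p d (app (xt t) (l₀ ++ B) (Finsupp.single (vac n) 1)) ≠ 0 := by
  intro hz
  have h10 : ∀ a ∈ l₀, 1 ≤ a := fun a ha => h1 a (List.mem_append_left _ ha)
  have h1B : ∀ a ∈ B, 1 ≤ a := fun a ha => h1 a (List.mem_append_right _ ha)
  have hs0 : l₀.Pairwise (· ≤ ·) := hs.sublist (List.sublist_append_left _ _)
  have hsB : B.Pairwise (· ≤ ·) := hs.sublist (List.sublist_append_right _ _)
  rw [List.sum_append] at hn
  rw [LT_app_append] at hz
  set u₀ := app (xt t) l₀ (Finsupp.single (vac n) (1 : ℤ)) with hu0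
  have hgv0 : GV n l₀.sum u₀ := by
    have := LT_gv hLG (xt t) n l₀ 0 _ h10 (LT_gv0 n)
    rwa [zero_add] at this
  have hu0ne : u₀ ≠ 0 := by
    intro h
    exact NZG_vac_ne n (NZG_app_ne hDL hLG t l₀ 0 _ h10 (LT_gv0 n) (by omega) h)
  by_cases hone : 1 ∈ B
  · -- parts 1
    have hl0 : l₀ = [] := by
      have h2 := (hB 1 hone).1
      rcases l₀ with _ | ⟨a, l⟩
      · rfl
      · exfalso
        have := h10 a List.mem_cons_self
        rw [List.sum_cons] at h2
        omega
    have hsp := NZG_split hsB h1B
    set m := B.count 1 with hm
    set B'' := B.filter (fun x => decide (1 < x)) with hB''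
    have hm1 : 1 ≤ m := List.count_pos_iff.2 hone
    have hsub : ∀ x ∈ B'', x ∈ B ∧ 1 < x := by
      intro x hx
      rw [hB'', List.mem_filter] at hx
      exact ⟨hx.1, by simpa using hx.2⟩
    have hsum : B.sum = m + B''.sum := by
      conv_lhs => rw [hsp]
      rw [List.sum_append, List.sum_replicate, smul_eq_mul, mul_one]
    have hodd : ∀ x ∈ B'', 3 ≤ x := by
      intro x hx
      have h2 := hpar 1 hone x (hsub x hx).1
      have h3 := (hsub x hx).2
      rw [Nat.even_iff] at h2
      omega
    have happ : app (xt t) B u₀ = app (xt t) B'' (((Rib (xt t) 1) ^ m) u₀) := by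
      conv_lhs => rw [hsp]
      rw [LT_app_append, LT_app_replicate]
    have hu0v : u₀ = Finsupp.single (vac n) 1 := by rw [hu0, hl0]; rfl
    have hgv1 : GV n m (((Rib (xt t) 1) ^ m) u₀) := by
      rw [← LT_app_replicate, hu0v]
      have := LT_gv hLG (xt t) n (List.replicate m 1) 0 _ (by
        intro a ha
        rw [(List.mem_replicate.1 ha).2]) (LT_gv0 n)
      rwa [zero_add, List.sum_replicate, smul_eq_mul, mul_one] at this
    have hne1 : ((Rib (xt t) 1) ^ m) u₀ ≠ 0 := by
      intro h
      rw [← LT_app_replicate, hu0v] at h
      refine NZG_vac_ne n (NZG_app_ne hDL hLG t (List.replicate m 1) 0 _ (by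
        intro a ha
        rw [(List.mem_replicate.1 ha).2]) (LT_gv0 n) ?_ h)
      rw [List.sum_replicate, smul_eq_mul]
      omega
    rw [happ] at hz
    have hrec := NZG_rec hDL hLAD hR1 hR2 hLB hLG t hgv1 hne1 B''.length B'' rfl
      (hsB.sublist List.filter_sublist) p d (by
        intro b hb
        have hbB := (hsub b hb).1
        refine ⟨Or.inl (hodd b hb), ?_, (hB b hbB).2⟩
        rw [← LT_app_replicate, hu0v]
        refine NZG_kill hLB hLG t _ 0 _ ?_ (LT_gv0 n) ?_ ?_
        · intro x hx
          rw [(List.mem_replicate.1 hx).2]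
          have := hodd b hb
          refine ⟨le_refl _, by omega, ?_⟩
          rw [add_comm]
          exact hpar 1 hone b hbB
        · rw [List.sum_replicate, smul_eq_mul]
          omega
        · have := hodd b hb
          exact NZG_low0 hLG t (by omega) (LT_gv0 n) (by omega))
      (fun x hx y hy => hpar x (hsub x hx).1 y (hsub y hy).1) (by omega) (by omega) hz
    have hparr := NZP_par_rec B'' p d (fun b hb => hpar 1 hone b (hsub b hb).1) (hB 1 hone).2
    by_cases hneg : d - B''.sum < 0
    · exact hne1 (NZG_YO_inj hDL t _ hneg hgv1 (by omega) hrec)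
    · obtain ⟨d', hd'⟩ : ∃ d' : ℕ, d - B''.sum = d' := ⟨(d - B''.sum).toNat, by omega⟩
      rw [hd', hu0v] at hrec
      rw [hd'] at hparr
      refine hB1 t _ n m d' (by omega) hm1 ?_ ?_ ?_ ?_ ?_ hrec
      · intro h
        unfold GRP_par at hparr
        rw [h, if_pos rfl, sub_zero] at hparr
        exact_mod_cast hparr
      · intro h
        unfold GRP_par at hparr
        rw [h, if_neg (by decide)] at hparr
        have h2 : Even (d' : ℤ) := by
          have h3 := hparr.add_odd (odd_one (α := ℤ))
          have h4 : (d' : ℤ) - (1 : ℕ) + 1 = d' := by push_cast; ring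
          rwa [h4] at h3
        exact_mod_cast h2
      · cases t
        · have h2 : d < B.sum := by simpa using hc
          simp only [Bool.false_eq_true, if_false]
          omega
        · have h2 : d ≤ B.sum := by simpa using hc
          simp only [if_true]
          omega
      · rintro ⟨ht, hm2, hd1⟩
        exact hx1 ⟨ht, hl0, hm2, by omega⟩
      · rintro ⟨ht, hm2, hd1⟩
        exact hx2 ⟨ht, hl0, hm2, by omega⟩
  · by_cases htwo : B.count 2 = 1
    · -- one part 2
      have h2mem : 2 ∈ B := List.count_pos_iff.1 (by omega)
      have h2B : ∀ b ∈ B, 2 ≤ b := by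
        intro b hb
        have h2 := h1B b hb
        have h3 : b ≠ 1 := fun h => hone (h ▸ hb)
        omega
      have hsp := NZG_split hsB h2B
      rw [htwo] at hsp
      set B'' := B.filter (fun x => decide (2 < x)) with hB''
      have hsub : ∀ x ∈ B'', x ∈ B ∧ 2 < x := by
        intro x hx
        rw [hB'', List.mem_filter] at hx
        exact ⟨hx.1, by simpa using hx.2⟩
      have hsum : B.sum = 2 + B''.sum := by
        conv_lhs => rw [hsp]
        rw [List.sum_append, List.sum_replicate, smul_eq_mul, one_mul]
      have hlen : B.length = 1 + B''.length := by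
        conv_lhs => rw [hsp]
        rw [List.length_append, List.length_replicate]
      have hev : ∀ x ∈ B'', Even x := by
        intro x hx
        have h2 := hpar 2 h2mem x (hsub x hx).1
        rw [Nat.even_iff] at h2 ⊢
        omega
      have happ : app (xt t) B u₀ = app (xt t) B'' (Rib (xt t) 2 u₀) := by
        conv_lhs => rw [hsp]
        rw [LT_app_append, LT_app_replicate, pow_one]
      have hl0sum : l₀.sum < 2 := (hB 2 h2mem).1
      have hl0 : l₀ = [] ∨ l₀ = [1] := by
        rcases l₀ with _ | ⟨a, l⟩
        · exact Or.inl rfl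
        · right
          have h2 := h10 a List.mem_cons_self
          rw [List.sum_cons] at hl0sum
          rcases l with _ | ⟨b, l⟩
          · have : a = 1 := by omega
            rw [this]
          · exfalso
            have := h10 b (by simp)
            rw [List.sum_cons] at hl0sum
            omega
      have hgv1 : GV n (l₀.sum + 2) (Rib (xt t) 2 u₀) :=
        (hLG ℤ (xt t) n _ 2 _ (by omega) hgv0).1
      have hne1 : Rib (xt t) 2 u₀ ≠ 0 := by
        intro h
        exact hu0ne (NZG_inj hDL (LT_xt_sq t) (by omega) hgv0 (by omega) h)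
      rw [happ] at hz
      have hrec := NZG_rec hDL hLAD hR1 hR2 hLB hLG t hgv1 hne1 B''.length B'' rfl
        (hsB.sublist List.filter_sublist) p d (by
          intro b hb
          obtain ⟨hbB, hb2⟩ := hsub b hb
          have hb4 : 4 ≤ b := by
            have := hev b hb
            rw [Nat.even_iff] at this
            omega
          refine ⟨Or.inl (by omega), ?_, (hB b hbB).2⟩
          have h3 := NZG_kill hLB hLG t (a := b) [2] l₀.sum u₀ (by
            intro x hx
            rw [List.mem_singleton] at hx
            rw [hx]
            refine ⟨by omega, by omega, ?_⟩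
            exact (hev b hb).add even_two) hgv0 (by simp; omega)
            (NZG_low0 hLG t (by omega) hgv0 (hB b hbB).1)
          exact h3)
        (fun x hx y hy => hpar x (hsub x hx).1 y (hsub y hy).1) (by omega) (by omega) hz
      have hparr := NZP_par_rec B'' p d (fun b hb => hpar 2 h2mem b (hsub b hb).1) (hB 2 h2mem).2
      by_cases hneg : d - B''.sum < 0
      · exact hne1 (NZG_YO_inj hDL t _ hneg hgv1 (by omega) hrec)
      · have hcle : d ≤ 2 + B''.sum := by
          cases t
          · have : d < B.sum := by simpa using hc
            omega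
          · have : d ≤ B.sum := by simpa using hc
            omega
        have hd1 : d - B''.sum = 1 := by
          have h5 : Odd (d - B''.sum) := by
            unfold GRP_par at hparr
            revert hparr
            cases (p ^^ decide (Odd B''.length))
            · intro h
              rw [if_neg (by decide)] at h
              have h6 := h.add_even (even_two (α := ℤ))
              have h7 : d - (B''.sum : ℤ) - (2 : ℕ) + 2 = d - B''.sum := by push_cast; ring
              rwa [h7] at h6
            · intro h
              rwa [if_pos rfl, sub_zero] at h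
          rw [Int.odd_iff] at h5
          omega
        rw [hd1] at hrec
        rcases hl0 with h | h
        · have e : u₀ = Finsupp.single (vac n) 1 := by rw [hu0, h]; rfl
          rw [e] at hrec
          exact (hB2 t _ n).1 (by omega) hrec
        · have e : u₀ = Rib (xt t) 1 (Finsupp.single (vac n) 1) := by rw [hu0, h]; rfl
          rw [e] at hrec
          have hs1 : l₀.sum = 1 := by rw [h]; rfl
          refine (hB2 t _ n).2 (by omega) ?_ hrec
          rintro ⟨ht, hp'⟩
          apply hx3
          refine ⟨ht, h, htwo, by omega, ?_⟩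
          rw [hlen]
          have e1 : decide (Odd (1 + B''.length)) = !decide (Odd B''.length) := by
            rw [← decide_not, decide_eq_decide, add_comm, Nat.odd_add_one]
          rw [e1]
          revert hp'
          cases p <;> cases decide (Odd B''.length) <;> simp
    · -- general case
      have hrec := NZG_rec hDL hLAD hR1 hR2 hLB hLG t hgv0 hu0ne B.length B rfl hsB p d (by
          intro b hb
          refine ⟨?_, NZG_low0 hLG t (h1B b hb) hgv0 (hB b hb).1, (hB b hb).2⟩
          have h2 := h1B b hb
          have h3 : b ≠ 1 := fun h => hone (h ▸ hb)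
          by_cases hb2 : b = 2
          · refine Or.inr ⟨hb2, ?_⟩
            have : 0 < B.count 2 := List.count_pos_iff.2 (hb2 ▸ hb)
            omega
          · exact Or.inl (by omega))
        hpar (by omega) (by omega) hz
      by_cases hneg : d - B.sum < 0
      · exact hu0ne (NZG_YO_inj hDL t _ hneg hgv0 (by omega) hrec)
      · cases t
        · have : d < B.sum := by simpa using hc
          omega
        · have hcc : d ≤ B.sum := by simpa using hc
          have hce : d - B.sum = 0 := by omega
          rw [hce] at hrec
          have hfalse : (p ^^ decide (Odd B.length)) = false := by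
            rcases B with _ | ⟨b, B⟩
            · have hd : d = 0 := by simpa using hce
              cases p
              · simp
              · exact absurd (hp rfl) (by rw [hd]; decide)
            · have hparr := NZP_par_rec (b :: B) p d
                (fun x hx => hpar b List.mem_cons_self x hx) (hB b List.mem_cons_self).2
              rw [hce] at hparr
              revert hparr
              cases (p ^^ decide (Odd (b :: B).length))
              · intro _; rfl
              · intro h
                unfold GRP_par at h
                rw [if_pos rfl, sub_zero] at h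
                exact absurd h (by decide)
          rw [hfalse] at hrec
          exact hu0ne (NZG_E0 hgv0 hrec)

end nzg2

end Pool.Agent.helper27.PC
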