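import Pool.Agent.helper27.PC3.Stmt3
import Pool.Agent.helper80.PC2.LALG
import Pool.Agent.helper15.PC2.DL
import Pool.Agent.helper14.PC2.LT

/-!
# PC project, third part: degrees, adjoints, commutators with the annihilation operators
-/

namespace Pool.Agent.helper27.PC

open Module Finset

section r2

theorem R2_Dg_single (f : Lab → ℤ) (S : St) :
    Dg f (Finsupp.single S 1) = (∑ l ∈ S, f l) • Finsupp.single S (1 : ℤ) := by
  unfold Dg
  rw [Finsupp.linearCombination_single, one_smul, Finsupp.smul_single, smul_eq_mul, mul_one]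

theorem R2_Dg_apply (f : Lab → ℤ) (u : St →₀ ℤ) (S : St) : Dg f u S = (∑ l ∈ S, f l) * u S := by
  induction u using Finsupp.induction_linear with
  | zero => simp
  | add u u' h h' => rw [map_add, Finsupp.add_apply, h, h', Finsupp.add_apply, mul_add]
  | single T c =>
    have : Finsupp.single T c = c • Finsupp.single T (1 : ℤ) := by
      rw [Finsupp.smul_single, smul_eq_mul, mul_one]
    rw [this, map_smul, R2_Dg_single, Finsupp.smul_apply, Finsupp.smul_apply, Finsupp.smul_apply,
      Finsupp.single_apply]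
    split_ifs with h
    · subst h
      simp only [smul_eq_mul]
      ring
    · simp

theorem R2_GV_dg {n k : ℕ} {f : Lab → ℤ} {u : St →₀ ℤ} (hu : GV n k u) : GV n k (Dg f u) := by
  intro S hS
  apply hu
  rw [Finsupp.mem_support_iff] at hS ⊢
  intro h
  apply hS
  rw [R2_Dg_apply, h, mul_zero]

theorem R2_GV_sub {n k : ℕ} {u v : St →₀ ℤ} (hu : GV n k u) (hv : GV n k v) : GV n k (u - v) := by
  intro S hS
  rcases Finset.mem_union.1 (Finsupp.support_sub hS) with h | h
  · exact hu S h
  · exact hv S h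

theorem R2_GV_add {n k : ℕ} {u v : St →₀ ℤ} (hu : GV n k u) (hv : GV n k v) : GV n k (u + v) := by
  intro S hS
  rcases Finset.mem_union.1 (Finsupp.support_add hS) with h | h
  · exact hu S h
  · exact hv S h

theorem R2_GV_smul {n k : ℕ} {u : St →₀ ℤ} (c : ℤ) (hu : GV n k u) : GV n k (c • u) := by
  intro S hS
  exact hu S (Finsupp.support_smul hS)

/-- degrees -/
theorem R2_deg (hLG : LG_stmt) (t p : Bool) {n k : ℕ} {d : ℤ} {u : St →₀ ℤ} (hu : GV n k u)
    (hp : p = true → d ≠ 0) :
    (∀ K : ℕ, (K : ℤ) = k - d → GV n K (YO t p d u)) ∧ ((k : ℤ) < d → YO t p d u = 0) := by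
  have key : ∀ (w : Lab → ℤ), (0 < d → (∀ K : ℕ, (K : ℤ) = k - d → GV n K (Low w d.natAbs u)) ∧
      ((k : ℤ) < d → Low w d.natAbs u = 0)) ∧
      (d < 0 → ∀ K : ℕ, (K : ℤ) = k - d → GV n K (Rib w d.natAbs u)) := by
    intro w
    constructor
    · intro h
      have h1 := hLG ℤ w n k d.natAbs u (by omega) hu
      constructor
      · intro K hK
        have := h1.2.1 (by omega)
        rw [show K = k - d.natAbs by omega]
        exact this
      · intro h2
        exact h1.2.2 (by omega)
    · intro h K hK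
      have h1 := (hLG ℤ w n k d.natAbs u (by omega) hu).1
      rw [show K = k + d.natAbs by omega]
      exact h1
  cases p
  · unfold YO
    rw [if_neg (by decide)]
    unfold EO
    rcases lt_trichotomy d 0 with hd | hd | hd
    · rw [if_pos hd]
      exact ⟨(key (xt t)).2 hd, fun h => by omega⟩
    · subst hd
      rw [if_neg (lt_irrefl _), if_pos rfl]
      constructor
      · intro K hK
        rw [show K = k by omega, LinearMap.sub_apply, LinearMap.smul_apply, LinearMap.id_apply]
        exact R2_GV_sub (R2_GV_dg hu) (R2_GV_smul _ hu)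
      · intro h
        omega
    · rw [if_neg (by omega), if_neg (by omega)]
      constructor
      · intro K hK
        rw [LinearMap.smul_apply]
        exact R2_GV_smul _ (((key (xt t)).1 hd).1 K hK)
      · intro h
        rw [LinearMap.smul_apply, ((key (xt t)).1 hd).2 h, smul_zero]
  · unfold YO
    rw [if_pos rfl]
    unfold PO
    have h0 := hp rfl
    rcases lt_or_gt_of_ne h0 with hd | hd
    · rw [if_pos hd]
      exact ⟨(key _).2 hd, fun h => by omega⟩
    · rw [if_neg (by omega)]
      exact (key _).1 hd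

theorem R2_dot_single (u : St →₀ ℤ) (T : St) : dot u (Finsupp.single T 1) = u T := by
  rw [DL_dot_comm]
  unfold dot
  rw [Finsupp.sum_single_index]
  · rw [one_mul]
  · rw [zero_mul]

theorem R2_dot_smul_left (u u' : St →₀ ℤ) (c : ℤ) : dot (c • u) u' = c * dot u u' := by
  rw [DL_dot_comm, DL_dot_smul, DL_dot_comm]

theorem R2_dot_sub (u a b : St →₀ ℤ) : dot u (a - b) = dot u a - dot u b := by
  rw [sub_eq_add_neg, DL_dot_add, ← neg_one_smul ℤ b, DL_dot_smul]
  ring

theorem R2_dot_sub_left (a b u : St →₀ ℤ) : dot (a - b) u = dot a u - dot b u := by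
  rw [DL_dot_comm, R2_dot_sub, DL_dot_comm u a, DL_dot_comm u b]

theorem R2_dot_Dg (f : Lab → ℤ) (u u' : St →₀ ℤ) : dot (Dg f u) u' = dot u (Dg f u') := by
  rw [LALG_dot (Dg f u) u' (u.support ∪ (Dg f u).support) subset_union_right,
    LALG_dot u (Dg f u') (u.support ∪ (Dg f u).support) subset_union_left]
  refine sum_congr rfl fun S _ => ?_
  rw [R2_Dg_apply, R2_Dg_apply]
  ring

/-- adjoints -/
theorem R2_adj_P (hLA : LA_stmt) {d : ℤ} (hd : d ≠ 0) (u u' : St →₀ ℤ) :
    dot (PO d u) u' = dot u (PO (-d) u') := by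
  unfold PO
  rcases lt_or_gt_of_ne hd with h | h
  · rw [if_pos h, if_neg (by omega), Int.natAbs_neg, hLA ℤ _ _ _ _ (by omega)]
  · rw [if_neg (by omega), if_pos (by omega), Int.natAbs_neg, DL_dot_comm u, hLA ℤ _ _ _ _ (by omega),
      DL_dot_comm]

theorem R2_adj_E (hLA : LA_stmt) (t : Bool) (d : ℤ) (u u' : St →₀ ℤ) :
    dot (EO t d u) u' = (-1) ^ d.natAbs * dot u (EO t (-d) u') := by
  have hpp : (-1 : ℤ) ^ d.natAbs * (-1) ^ d.natAbs = 1 := by rw [← mul_pow]; simp
  unfold EO
  rcases lt_trichotomy d 0 with h | h | h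
  · rw [if_pos h, if_neg (by omega), if_neg (by omega), Int.natAbs_neg, LinearMap.smul_apply,
      DL_dot_smul, ← mul_assoc, hpp, one_mul, hLA ℤ _ _ _ _ (by omega)]
  · subst h
    simp only [neg_zero, lt_irrefl, if_false, if_true, Int.natAbs_zero, pow_zero, one_mul]
    rw [LinearMap.sub_apply, LinearMap.sub_apply, LinearMap.smul_apply, LinearMap.smul_apply,
      LinearMap.id_apply, LinearMap.id_apply, R2_dot_sub_left, R2_dot_sub, R2_dot_Dg,
      R2_dot_smul_left, DL_dot_smul]
  · rw [if_neg (by omega), if_neg (by omega), if_pos (by omega), Int.natAbs_neg,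
      LinearMap.smul_apply, R2_dot_smul_left, DL_dot_comm u, hLA ℤ _ _ _ _ (by omega), DL_dot_comm]

theorem R2_ext {n : ℕ} {K : ℕ} {a b : St →₀ ℤ} (ha : GV n K a) (hb : GV n K b)
    (h : ∀ T, SD_Good n K T → dot a (Finsupp.single T 1) = dot b (Finsupp.single T 1)) : a = b := by
  ext T
  by_cases hT : SD_Good n K T
  · have := h T hT
    rwa [R2_dot_single, R2_dot_single] at this
  · have h1 : a T = 0 := by
      by_contra h2
      exact hT (ha T (Finsupp.mem_support_iff.2 h2))
    have h2 : b T = 0 := by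
      by_contra h3
      exact hT (hb T (Finsupp.mem_support_iff.2 h3))
    rw [h1, h2]

theorem R2_GV_single {n K : ℕ} {T : St} (hT : SD_Good n K T) : GV n K (Finsupp.single T (1 : ℤ)) := by
  intro S hS
  have := Finsupp.support_single_subset hS
  rw [Finset.mem_singleton] at this
  rw [this]
  exact hT

theorem R2 (hR1 : R1_stmt) (hLA : LA_stmt) (hLG : LG_stmt) : R2_stmt := by
  intro t n k b d u hb hu hk hkd
  have hadjL : ∀ v v' : St →₀ ℤ, dot (Low (xt t) b v) v' = dot v (Rib (xt t) b v') := by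
    intro v v'
    rw [DL_dot_comm, ← hLA ℤ _ _ _ _ hb, DL_dot_comm]
  have hYE : ∀ (d : ℤ) (v : St →₀ ℤ), EO t d v = YO t false d v := fun d v => rfl
  have hYP : ∀ (d : ℤ) (v : St →₀ ℤ), PO d v = YO t true d v := fun d v => rfl
  -- degrees of the four vectors
  have hdeg : ∀ p : Bool, (p = true → d ≠ 0) →
      ((0 : ℤ) ≤ k - b - d → ∀ K : ℕ, (K : ℤ) = k - b - d →
        GV n K (Low (xt t) b (YO t p d u)) ∧ GV n K (YO t p d (Low (xt t) b u))) ∧
      ((k : ℤ) - b - d < 0 → Low (xt t) b (YO t p d u) = 0 ∧ YO t p d (Low (xt t) b u) = 0) := by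
    intro p hp
    have h1 := R2_deg hLG t p hu hp
    constructor
    · intro h0 K hK
      constructor
      · obtain ⟨K', hK'⟩ : ∃ K' : ℕ, (K' : ℤ) = k - d := ⟨(k - d).toNat, by omega⟩
        have h2 := h1.1 K' hK'
        have h3 := (hLG ℤ (xt t) n K' b _ hb h2).2.1 (by omega)
        rw [show K = K' - b by omega]
        exact h3
      · by_cases hbk : b ≤ k
        · have h2 := (hLG ℤ (xt t) n k b u hb hu).2.1 hbk
          exact (R2_deg hLG t p h2 hp).1 K (by omega)
        · have h2 := (hLG ℤ (xt t) n k b u hb hu).2.2 (by omega)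
          rw [h2, map_zero]
          exact DL_GV_zero n K
    · intro h0
      constructor
      · by_cases hd : (k : ℤ) < d
        · rw [h1.2 hd, map_zero]
        · obtain ⟨K', hK'⟩ : ∃ K' : ℕ, (K' : ℤ) = k - d := ⟨(k - d).toNat, by omega⟩
          exact (hLG ℤ (xt t) n K' b _ hb (h1.1 K' hK')).2.2 (by omega)
      · by_cases hbk : b ≤ k
        · have h2 := (hLG ℤ (xt t) n k b u hb hu).2.1 hbk
          exact (R2_deg hLG t p h2 hp).2 (by omega)
        · rw [(hLG ℤ (xt t) n k b u hb hu).2.2 (by omega), map_zero]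
  constructor
  · intro hodd
    have hdb0 : d + b ≠ 0 := by
      intro h
      rw [h] at hodd
      exact absurd hodd (by decide)
    have hE := hdeg false (by simp)
    have hP := R2_deg hLG t true hu (d := d + b) (fun _ => hdb0)
    by_cases h0 : (0 : ℤ) ≤ k - b - d
    · obtain ⟨K, hK⟩ : ∃ K : ℕ, (K : ℤ) = k - b - d := ⟨(k - b - d).toNat, by omega⟩
      obtain ⟨e1, e2⟩ := hE.1 h0 K hK
      refine R2_ext (K := K) (R2_GV_sub e1 e2) (R2_GV_smul _ (hP.1 K (by omega))) fun T hT => ?_
      have hg := R2_GV_single hT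
      have hr := (hR1 t n K b (-d) _ hb hg (by omega)).1 (by
        rw [show -d - (b : ℤ) = -(d + b) by ring]
        exact hodd.neg)
      rw [R2_dot_sub_left, hadjL, R2_adj_E hLA, R2_adj_E hLA, hadjL, ← mul_sub, ← R2_dot_sub, hr,
        DL_dot_smul, R2_dot_smul_left, R2_adj_P hLA hdb0,
        show -(d + (b : ℤ)) = -d - b by ring]
      have hsg : (-1 : ℤ) ^ d.natAbs * (-1) ^ b = -1 := by
        rw [← pow_add]
        have : Odd (d.natAbs + b) := by
          rw [Nat.odd_add]
          rw [Int.odd_add] at hodd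
          rw [Int.natAbs_odd, hodd]
          norm_cast
        exact this.neg_one_pow
      linear_combination (2 * dot u (PO (-d - b) (Finsupp.single T 1))) * hsg
    · obtain ⟨e1, e2⟩ := hE.2 (by omega)
      rw [hYE, hYE, e1, e2, hYP, hP.2 (by omega)]
      simp
  · intro hodd
    have hd0 : d ≠ 0 := by
      intro h
      rw [h] at hodd
      exact absurd hodd (by decide)
    have hE := hdeg true (fun _ => hd0)
    have hP := R2_deg hLG t false hu (d := d + b) (by simp)
    by_cases h0 : (0 : ℤ) ≤ k - b - d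
    · obtain ⟨K, hK⟩ : ∃ K : ℕ, (K : ℤ) = k - b - d := ⟨(k - b - d).toNat, by omega⟩
      obtain ⟨e1, e2⟩ := hE.1 h0 K hK
      refine R2_ext (K := K) (R2_GV_sub e1 e2) (R2_GV_smul _ (hP.1 K (by omega))) fun T hT => ?_
      have hg := R2_GV_single hT
      have hr := (hR1 t n K b (-d) _ hb hg (by omega)).2 hodd.neg
      rw [R2_dot_sub_left, hadjL, R2_adj_P hLA hd0, R2_adj_P hLA hd0, hadjL, ← R2_dot_sub, hr,
        DL_dot_smul, R2_dot_smul_left, R2_adj_E hLA, show -(d + (b : ℤ)) = -d - b by ring]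
      have hsg : (-1 : ℤ) ^ b * (-1) ^ (d + b).natAbs = -1 := by
        rw [← pow_add]
        have : Odd (b + (d + b).natAbs) := by
          rcases Nat.even_or_odd b with hb' | hb'
          · have h3 : Odd (d + (b : ℤ)) := hodd.add_even (by exact_mod_cast hb')
            exact hb'.add_odd (Int.natAbs_odd.2 h3)
          · have h3 : Even (d + (b : ℤ)) := hodd.add_odd (by exact_mod_cast hb')
            exact hb'.add_even (Int.natAbs_even.2 h3)
        exact this.neg_one_pow
      linear_combination (2 * dot u (EO t (-d - b) (Finsupp.single T 1))) * hsg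
    · obtain ⟨e1, e2⟩ := hE.2 (by omega)
      rw [hYP, hYP, e1, e2, hYE, hP.2 (by omega)]
      simp

end r2

end Pool.Agent.helper27.PC
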