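import Pool.Agent.helper27.PC2.Stmt2

/-!
# PC project, third part (blocks of parts of equal parity): definitions and statements of the modules
-/

namespace Pool.Agent.helper27.PC

open Module Polynomial

/-- moving a bead `d` steps down (`-d` steps up if `d < 0`) with the weight `xt t` at the starting place;
for `d = 0` the diagonal operator, normalised -/
noncomputable def EO (t : Bool) (d : ℤ) : (St →₀ ℤ) →ₗ[ℤ] (St →₀ ℤ) :=
  if d < 0 then Rib (xt t) d.natAbs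
  else if d = 0 then Dg (xt t) - (if t then (1 : ℤ) else 0) • LinearMap.id
  else ((-1 : ℤ) ^ d.natAbs) • Low (xt t) d.natAbs

/-- moving a bead `d` steps down (`-d` steps up if `d < 0`) with weight `1` -/
noncomputable def PO (d : ℤ) : (St →₀ ℤ) →ₗ[ℤ] (St →₀ ℤ) :=
  if d < 0 then Rib (fun _ => 1) d.natAbs else Low (fun _ => 1) d.natAbs

/-- `PO` for `p = true`, `EO` for `p = false` -/
noncomputable def YO (t p : Bool) (d : ℤ) : (St →₀ ℤ) →ₗ[ℤ] (St →₀ ℤ) := if p then PO d else EO t d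

/-- commutator of two creation operators; of a diagonal operator and a creation operator -/
def RRC_stmt : Prop := ∀ (R : Type) [CommRing R] (x y : Lab → R) (a b : ℕ) (u : St →₀ R), 1 ≤ a → 1 ≤ b →
  Rib x a (Rib y b u) - Rib y b (Rib x a u) =
    Rib (fun l => x (up b l) * y l - x l * y (up a l)) (a + b) u ∧
  Dg x (Rib y b u) - Rib y b (Dg x u) = Rib (fun l => (x (up b l) - x l) * y l) b u

/-- commutators with the creation operators `Rib (xt t) b` -/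
def R1_stmt : Prop := ∀ (t : Bool) (n k b : ℕ) (d : ℤ) (u : St →₀ ℤ), 1 ≤ b → GV n k u → k + b ≤ n →
  (Odd (d - b) → EO t d (Rib (xt t) b u) - Rib (xt t) b (EO t d u) = (2 * (-1) ^ b : ℤ) • PO (d - b) u) ∧
  (Odd d → PO d (Rib (xt t) b u) - Rib (xt t) b (PO d u) = (2 : ℤ) • EO t (d - b) u)

/-- commutators with the annihilation operators `Low (xt t) b` -/
def R2_stmt : Prop := ∀ (t : Bool) (n k b : ℕ) (d : ℤ) (u : St →₀ ℤ), 1 ≤ b → GV n k u → k ≤ n →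
  (k : ℤ) - d ≤ n →
  (Odd (d + b) → Low (xt t) b (EO t d u) - EO t d (Low (xt t) b u) = (-2 : ℤ) • PO (d + b) u) ∧
  (Odd d → Low (xt t) b (PO d u) - PO d (Low (xt t) b u) = (-2 * (-1) ^ b : ℤ) • EO t (d + b) u)

/-- algebra: a ladder of vectors -/
def LAD_stmt : Prop := ∀ (V : Type) [AddCommGroup V] (b m : ℕ), (3 ≤ b ∨ (b = 2 ∧ 2 ≤ m)) →
  (∀ (k : ℤ) (v : V), k ≠ 0 → k • v = 0 → v = 0) →
  ∀ (a c : Module.End ℤ V) (z : ℕ → V), (∀ r : ℕ, a (z r) = (-2 : ℤ) • z (r + 1)) →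
  (∀ p r : ℕ, p + 1 ≤ r → a ((c ^ (p + 1)) (z r)) =
    (c ^ (p + 1)) (a (z r)) + (2 * b * (p + 1) : ℤ) • (c ^ p) (z r)) →
  (∃ N : ℕ, z N = 0) →
  ∑ p ∈ Finset.range (m + 1), ((m.choose p : ℤ) * 2 ^ (m - p)) • (c ^ p) (z p) = 0 → z 0 = 0

/-- parts `1` -/
def B1_stmt : Prop := ∀ (t p : Bool) (n m d : ℕ), m ≤ n → 1 ≤ m → (p = true → Odd d) →
  (p = false → Even d) → (if t then d ≤ m else d < m) → ¬ (t = true ∧ m = 2 ∧ d = 1) →
  ¬ (t = false ∧ m = 2 ∧ d = 0) →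
  YO t p d (((Rib (xt t) 1) ^ m) (Finsupp.single (vac n) 1)) ≠ 0

/-- one part `2`, at most one part `1` -/
def B2_stmt : Prop := ∀ (t p : Bool) (n : ℕ),
  (2 ≤ n → YO t p 1 (Rib (xt t) 2 (Finsupp.single (vac n) 1)) ≠ 0) ∧
  (3 ≤ n → ¬ (t = false ∧ p = false) →
    YO t p 1 (Rib (xt t) 2 (Rib (xt t) 1 (Finsupp.single (vac n) 1))) ≠ 0)

/-- the condition on the blocks: `l = l₀ ++ B ++ c :: l₁`, the parts `B` have the same parity and are larger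
than the sum of `l₀`, `c` has the other parity and is at most (less than, in type `D`) the sum of `B`; some
exceptions -/
def Blocks (t : Bool) (l : List ℕ) : Prop :=
  ∃ (l₀ B l₁ : List ℕ) (c : ℕ), l = l₀ ++ B ++ c :: l₁ ∧ (∀ b ∈ B, l₀.sum < b ∧ Odd (c + b)) ∧
    (if t then c ≤ B.sum else c < B.sum) ∧
    ¬ (t = true ∧ l₀ = [] ∧ B.count 1 = 2 ∧ B.sum = c + 1) ∧
    ¬ (t = false ∧ l₀ = [] ∧ B.count 1 = 2 ∧ B.sum = c + 2) ∧
    ¬ (t = false ∧ l₀ = [1] ∧ B.count 2 = 1 ∧ B.sum = c + 1 ∧ Odd B.length)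

/-- nonvanishing -/
def NZG_stmt : Prop := ∀ (t : Bool) (n c : ℕ) (l₀ B : List ℕ), (∀ a ∈ l₀ ++ B, 1 ≤ a) →
  (l₀ ++ B).Pairwise (· ≤ ·) → (l₀ ++ B).sum ≤ n → (∀ b ∈ B, l₀.sum < b ∧ Odd (c + b) ∧ b < c) →
  (if t then c ≤ B.sum else c < B.sum) →
  ¬ (t = true ∧ l₀ = [] ∧ B.count 1 = 2 ∧ B.sum = c + 1) →
  ¬ (t = false ∧ l₀ = [] ∧ B.count 1 = 2 ∧ B.sum = c + 2) →
  ¬ (t = false ∧ l₀ = [1] ∧ B.count 2 = 1 ∧ B.sum = c + 1 ∧ Odd B.length) → 1 ≤ c →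
  Low (xt t) c (app (xt t) (l₀ ++ B) (Finsupp.single (vac n) 1)) ≠ 0

/-- comparison of the norms at `q = 1` and `q = -1` -/
def LTG_stmt : Prop := ∀ (t : Bool) (n : ℕ) (l : List ℕ), (∀ a ∈ l, 1 ≤ a) → l.Pairwise (· ≤ ·) →
  l.sum ≤ n → Blocks t l →
    nrm (app yt l (Finsupp.single (vac n) 1)) < nrm (app (xt t) l (Finsupp.single (vac n) 1))

end Pool.Agent.helper27.PC
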